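import Pool.Agent.V7H53.GG.TotDefs

/-!
# Abelian extensions of imaginary quadratic fields: definitions
-/

set_option autoImplicit false

namespace Pool.Agent.V7H53.GP

open Module IntermediateField Pool.Agent.Q60.MU Pool.Agent.V7H44.MF Pool.Agent.V7H53.TR
open Pool.Agent.V7H53.GG

/-- The cyclotomic `ℤ_p`-extension of `ℚ`: `R m` is a totally real subfield of degree `p ^ m` of the
field of the roots of unity of order `p ^ (m + 2)`. -/
def IsZpTower (p : ℕ) (R : ℕ → IntermediateField ℚ Qb) : Prop :=
  ∀ m, R m ≤ cyc p (m + 1) ∧ finrank ℚ (R m) = p ^ m ∧ IsReal (R m)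

/-- `N / k` is cyclic (if it is a Galois extension): the automorphisms over `k` coincide on `N` with
the powers of one of them. -/
def IsCyclicOver (k N : IntermediateField ℚ Qb) : Prop :=
  ∃ γ ∈ k.fixingSubgroup, ∀ x ∈ k.fixingSubgroup, ∃ i : ℤ, ∀ y ∈ N, x y = (γ ^ i) y

/-- `k` is an imaginary quadratic field, `K / k` is a finite abelian extension, `F` is a field between
`k` and `K`, and `F` and `K` are Galois extensions of the subfield `κ` of `k` (so `κ = k`, or `κ = ℚ`
if `F` and `K` are Galois extensions of `ℚ`). -/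
structure IsAbelianLayer (κ k F K : IntermediateField ℚ Qb) : Prop where
  quadratic : finrank ℚ k = 2
  imaginary : ¬ IsReal k
  finite : FiniteDimensional ℚ K
  abelian : StableOver k K ∧ CommutesOver k K
  base_le : κ ≤ k
  le : k ≤ F
  le' : F ≤ K
  galois : StableOver κ F ∧ StableOver κ K

/-- The degree of `N / E` is `n`, for `E ≤ N`. -/
def RelDeg (E N : IntermediateField ℚ Qb) (n : ℕ) : Prop := finrank ℚ N = n * finrank ℚ E

/-- Lower bounds for the dimensions of the irreducible representations over `𝔽_p` of the Galois group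
of `K / κ` which are not trivial on the Galois group of `K / F`: the smallest of the orders of `p`
modulo the prime divisors `ℓ ≠ p` of the degree of `K / F`; the number two, if `F` contains all subfields
of `K` which are abelian over `κ`; and the order of `p` modulo `ℓ ^ a`, if `K / κ` is cyclic of degree
divisible by `ℓ ^ a`, `a ≥ 1`, and `K / F` is of degree `ℓ`. -/
def AbelianDimPart (p : ℕ) [Fact p.Prime] (κ F K : IntermediateField ℚ Qb) : Prop :=
  (∀ d, (∀ ℓ c : ℕ, ℓ.Prime → ℓ ≠ p → RelDeg F K (ℓ * c) → d ≤ orderOf (p : ZMod ℓ)) →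
    DimGe p κ F K d) ∧
  ((∀ E, κ ≤ E → E ≤ K → StableOver κ E → CommutesOver κ E → E ≤ F) → DimGe p κ F K 2) ∧
  (IsCyclicOver κ K → ∀ ℓ a c : ℕ, ℓ.Prime → RelDeg F K ℓ → RelDeg κ K (ℓ ^ (a + 1) * c) →
    DimGe p κ F K (orderOf (p : ZMod (ℓ ^ (a + 1)))))

end Pool.Agent.V7H53.GP
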