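import Pool.Agent.V7H53.GP.Dim
import Pool.Agent.V7H53.GP.Defs

/-!
# Cyclic extensions
-/

set_option autoImplicit false

namespace Pool.Agent.V7H53.GP

open Subgroup Module IntermediateField Pool.Agent.Q60.MU Pool.Agent.V7H44.MF Pool.Agent.V7H53.TR
open Pool.Agent.V7H53.GG
open scoped Pointwise commutatorElement

variable {p : ℕ} [Fact p.Prime]

/-- A linear map whose powers have no fixed vectors. -/
theorem order_le_pow {V : Type} [AddCommGroup V] [Module (ZMod p) V] [Module.Finite (ZMod p) V]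
    [Nontrivial V] {ℓ a : ℕ} (hℓ : ℓ.Prime) (f : Module.End (ZMod p) V)
    (hf : f ^ ℓ ^ (a + 1) = 1) (hfree : ∀ v : V, v ≠ 0 → (f ^ ℓ ^ a) v ≠ v) :
    orderOf (p : ZMod (ℓ ^ (a + 1))) ≤ finrank (ZMod p) V := by
  classical
  have hp : p.Prime := Fact.out
  have hℓf : Fact ℓ.Prime := ⟨hℓ⟩
  have hfin : Finite V := Module.finite_of_finite (ZMod p)
  have ft : Fintype V := Fintype.ofFinite V
  have hq : ℓ ^ (a + 1) ≠ 0 := pow_ne_zero _ hℓ.ne_zero
  let u : (Module.End (ZMod p) V)ˣ := Units.ofPowEqOne f (ℓ ^ (a + 1)) hf hq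
  have hu : ∀ (j : ℕ) (v : V), u ^ j • v = (f ^ j) v := by
    intro j v
    show (((u ^ j : (Module.End (ZMod p) V)ˣ) : Module.End (ZMod p) V)) v = _
    rw [Units.val_pow_eq_pow_val]
    rfl
  have hu1 : u ^ ℓ ^ (a + 1) = 1 := by
    apply Units.ext
    rw [Units.val_pow_eq_pow_val]
    exact hf
  obtain ⟨v₀, hv₀⟩ := exists_ne (0 : V)
  have hu2 : ¬ u ^ ℓ ^ a = 1 := by
    intro h
    apply hfree v₀ hv₀
    rw [← hu, h, one_smul]
  have hord : orderOf u = ℓ ^ (a + 1) := orderOf_eq_prime_pow hu2 hu1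
  let X : SubMulAction (Subgroup.zpowers u) V :=
    { carrier := {v | v ≠ 0}
      smul_mem' := by
        intro z v hv h
        apply hv
        have : z⁻¹ • (z • v) = z⁻¹ • (0 : V) := by rw [h]
        rwa [inv_smul_smul, smul_zero] at this }
  have hcardZ : Nat.card (Subgroup.zpowers u) = ℓ ^ (a + 1) := by rw [Nat.card_zpowers, hord]
  have hfinZ : Finite (Subgroup.zpowers u) := Nat.finite_of_card_ne_zero (by rw [hcardZ]; exact hq)
  have hstab : ∀ x : X, MulAction.stabilizer (Subgroup.zpowers u) x = ⊥ := by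
    intro x
    rw [eq_bot_iff]
    rintro ⟨z, j, rfl⟩ hz
    have hz' : u ^ j • (x : V) = x := congrArg Subtype.val hz
    rw [Subgroup.mem_bot]
    apply Subtype.ext
    show u ^ j = 1
    have hjm : u ^ j = u ^ (j % ((ℓ ^ (a + 1) : ℕ) : ℤ)) := by
      rw [← hord, zpow_mod_orderOf]
    by_contra hne
    have hnd : ¬ ((ℓ ^ (a + 1) : ℕ) : ℤ) ∣ j := by
      intro h
      apply hne
      rw [← hord] at h
      exact orderOf_dvd_iff_zpow_eq_one.1 h
    have hg : Int.gcd j ((ℓ ^ (a + 1) : ℕ) : ℤ) ∣ ℓ ^ (a + 1) := by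
      have := Int.gcd_dvd_right j ((ℓ ^ (a + 1) : ℕ) : ℤ)
      exact Int.natCast_dvd_natCast.1 this
    obtain ⟨b, hb, hgb⟩ := (Nat.dvd_prime_pow hℓ).1 hg
    have hba : b ≤ a := by
      by_contra h
      have hb' : b = a + 1 := by omega
      apply hnd
      rw [hb'] at hgb
      rw [← hgb]
      exact Int.gcd_dvd_left j ((ℓ ^ (a + 1) : ℕ) : ℤ)
    have h1 := Int.gcd_eq_gcd_ab j ((ℓ ^ (a + 1) : ℕ) : ℤ)
    have h2 : u ^ ((Int.gcd j ((ℓ ^ (a + 1) : ℕ) : ℤ) : ℕ) : ℤ) • (x : V) = x := by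
      rw [h1, zpow_add, zpow_mul, zpow_mul, zpow_natCast u (ℓ ^ (a + 1)), hu1, one_zpow, mul_one]
      have h3 : u ^ j ∈ MulAction.stabilizer (Module.End (ZMod p) V)ˣ (x : V) := hz'
      exact Subgroup.zpow_mem _ h3 _
    rw [hgb, zpow_natCast] at h2
    have h3 : u ^ ℓ ^ b ∈ MulAction.stabilizer (Module.End (ZMod p) V)ˣ (x : V) := h2
    have h4 : (u ^ ℓ ^ b) ^ ℓ ^ (a - b) ∈ MulAction.stabilizer (Module.End (ZMod p) V)ˣ (x : V) :=
      Subgroup.pow_mem _ h3 _
    rw [← pow_mul, ← pow_add, Nat.add_sub_cancel' hba] at h4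
    have h5 : u ^ ℓ ^ a • (x : V) = x := h4
    rw [hu] at h5
    exact hfree x x.2 h5
  have ftZ : Fintype (Subgroup.zpowers u) := Fintype.ofFinite _
  have ftX : Fintype X := Fintype.ofFinite _
  have hX : Fintype.card X = p ^ finrank (ZMod p) V - 1 := by
    have h3 := Module.natCard_eq_pow_finrank (K := ZMod p) (V := V)
    rw [Nat.card_zmod, Nat.card_eq_fintype_card] at h3
    rw [← h3]
    have h4 : Fintype.card X = Fintype.card {v : V // v ≠ 0} := Fintype.card_congr (Equiv.refl _)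
    rw [h4, Fintype.card_subtype_compl, Fintype.card_subtype_eq]
  have hdvd : ℓ ^ (a + 1) ∣ p ^ finrank (ZMod p) V - 1 := by
    rw [← hX]
    have ftΩ : Fintype (Quotient (MulAction.orbitRel (Subgroup.zpowers u) X)) := Fintype.ofFinite _
    rw [MulAction.card_eq_sum_card_group_div_card_stabilizer (Subgroup.zpowers u) X]
    refine Finset.dvd_sum fun ω _ => ?_
    rw [← Nat.card_eq_fintype_card, ← Nat.card_eq_fintype_card, hstab, Subgroup.card_bot,
      Nat.div_one, hcardZ]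
  have h1 : ((p : ZMod (ℓ ^ (a + 1)))) ^ finrank (ZMod p) V = 1 := by
    have h2 : ((p ^ finrank (ZMod p) V : ℕ) : ZMod (ℓ ^ (a + 1))) = ((1 : ℕ) : ZMod (ℓ ^ (a + 1))) := by
      rw [ZMod.natCast_eq_natCast_iff]
      exact ((Nat.modEq_iff_dvd' (Nat.one_le_pow _ _ hp.pos)).2 hdvd).symm
    push_cast at h2
    exact h2
  exact Nat.le_of_dvd finrank_pos (orderOf_dvd_of_pow_eq_one h1)

theorem dim_cyclic {k F N : IntermediateField ℚ Qb} (hN : FiniteDimensional ℚ N) (hkF : k ≤ F)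
    (hFN : F ≤ N) (hFk : StableOver k F) (hNk : StableOver k N) (hcyc : IsCyclicOver k N) {ℓ a : ℕ}
    (hℓ : ℓ.Prime) (hF : finrank ℚ N = ℓ * finrank ℚ F)
    (hdvd : ℓ ^ (a + 1) * finrank ℚ k ∣ finrank ℚ N) :
    DimGe p k F N (orderOf (p : ZMod (ℓ ^ (a + 1)))) := by
  intro V _ _ _ τ' h1 h2 h3
  let τ : Representation (ZMod p) k.fixingSubgroup V := τ'
  have hnt : Nontrivial V := h2.1
  obtain ⟨γ, hγk, hγ⟩ := hcyc
  have hFf : FiniteDimensional ℚ F := fd_of_le hN hFN
  have hkf : FiniteDimensional ℚ k := fd_of_le hN (hkF.trans hFN)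
  have hLH : F.fixingSubgroup ≤ k.fixingSubgroup := fixingSubgroup_le hkF
  have hKL : N.fixingSubgroup ≤ F.fixingSubgroup := fixingSubgroup_le hFN
  have hKH : N.fixingSubgroup ≤ k.fixingSubgroup := hKL.trans hLH
  have hγ' : ∀ x ∈ k.fixingSubgroup, ∃ i : ℤ, (γ ^ i)⁻¹ * x ∈ N.fixingSubgroup := by
    intro x hx
    obtain ⟨i, hi⟩ := hγ x hx
    refine ⟨i, (mem_fixingSubgroup_iff _ _).2 fun y hy => ?_⟩
    rw [AlgEquiv.mul_apply, hi y hy, ← AlgEquiv.mul_apply, inv_mul_cancel, AlgEquiv.one_apply]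
  have hKn : (N.fixingSubgroup.subgroupOf k.fixingSubgroup).Normal :=
    ⟨fun x hx g => conj_of_stable hNk g g.2 x hx⟩
  have hLn : (F.fixingSubgroup.subgroupOf k.fixingSubgroup).Normal :=
    ⟨fun x hx g => conj_of_stable hFk g g.2 x hx⟩
  set n := N.fixingSubgroup.relIndex k.fixingSubgroup with hn
  set n' := F.fixingSubgroup.relIndex k.fixingSubgroup with hn'
  have e1 : n * finrank ℚ k = finrank ℚ N := by
    rw [finrank_eq_fixingSubgroup_index, finrank_eq_fixingSubgroup_index]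
    exact relIndex_mul_index hKH
  have e2 : n' * finrank ℚ k = finrank ℚ F := by
    rw [finrank_eq_fixingSubgroup_index, finrank_eq_fixingSubgroup_index]
    exact relIndex_mul_index hLH
  have hk0 : 0 < finrank ℚ k := finrank_pos
  have e3 : n = ℓ * n' := by
    apply Nat.eq_of_mul_eq_mul_right hk0
    rw [e1, hF, ← e2, mul_assoc]
  obtain ⟨c, hc⟩ : ℓ ^ (a + 1) ∣ n := by
    rw [← e1] at hdvd
    exact Nat.dvd_of_mul_dvd_mul_right hk0 hdvd
  have hc' : n' = ℓ ^ a * c := by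
    have h4 : ℓ * n' = ℓ * (ℓ ^ a * c) := by rw [← e3, hc, pow_succ]; ring
    exact Nat.eq_of_mul_eq_mul_left hℓ.pos h4
  let g : k.fixingSubgroup := ⟨γ, hγk⟩
  have hgn : ∀ v, τ (g ^ n) v = v := by
    intro v
    have h4 := (N.fixingSubgroup.subgroupOf k.fixingSubgroup).pow_index_mem g
    exact h1 _ h4 v
  have hpowτ : ∀ x ∈ k.fixingSubgroup, ∀ (hx : x ∈ k.fixingSubgroup), ∃ i : ℤ, ∀ v,
      τ ⟨x, hx⟩ v = τ (g ^ i) v := by
    intro x _ hx
    obtain ⟨i, hi⟩ := hγ' x hx
    refine ⟨i, fun v => ?_⟩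
    have h4 : (⟨x, hx⟩ : k.fixingSubgroup) = g ^ i * ⟨(γ ^ i)⁻¹ * x, hKH hi⟩ := by
      apply Subtype.ext
      show x = ((g ^ i : k.fixingSubgroup) : Gal(Qb/ℚ)) * ((γ ^ i)⁻¹ * x)
      rw [Subgroup.coe_zpow]
      show x = γ ^ i * ((γ ^ i)⁻¹ * x)
      rw [mul_inv_cancel_left]
    rw [h4, map_mul, Module.End.mul_apply]
    congr 1
    exact h1 _ hi v
  refine order_le_pow (p := p) hℓ (τ (g ^ c)) ?_ ?_
  · apply LinearMap.ext
    intro v
    rw [← map_pow, ← pow_mul, mul_comm, ← hc]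
    exact hgn v
  · intro v hv hfix
    apply h3
    -- the power of the generator is trivial
    have hh : ∀ w, τ (g ^ n') w = w := by
      let U : Submodule (ZMod p) V := LinearMap.ker (τ (g ^ n') - 1)
      have hU : Stable τ U := by
        intro y w hw
        rw [LinearMap.mem_ker, LinearMap.sub_apply, Module.End.one_apply, sub_eq_zero] at hw ⊢
        obtain ⟨i, hi⟩ := hpowτ y y.2 y.2
        have hi' : ∀ v, τ y v = τ (g ^ i) v := hi
        rw [hi', ← Module.End.mul_apply, ← map_mul, ← zpow_natCast, ← zpow_add, add_comm, zpow_add,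
          map_mul, Module.End.mul_apply, zpow_natCast, hw]
      rcases h2.2 U hU with h | h
      · exfalso
        apply hv
        have h4 : v ∈ U := by
          rw [LinearMap.mem_ker, LinearMap.sub_apply, Module.End.one_apply, sub_eq_zero, hc',
            mul_comm, pow_mul, map_pow]
          exact hfix
        rw [h, Submodule.mem_bot] at h4
        exact h4
      · intro w
        have h4 : w ∈ U := by rw [h]; trivial
        rwa [LinearMap.mem_ker, LinearMap.sub_apply, Module.End.one_apply, sub_eq_zero] at h4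
    intro x hx w
    let x' : k.fixingSubgroup := x
    have hxF : (x' : Gal(Qb/ℚ)) ∈ F.fixingSubgroup := hx
    obtain ⟨i, hi⟩ := hγ' x' x'.2
    have hiF : γ ^ i ∈ F.fixingSubgroup := by
      have h4 : γ ^ i = x' * ((γ ^ i)⁻¹ * x')⁻¹ := by group
      rw [h4]
      exact mul_mem hxF (inv_mem (hKL hi))
    -- the order of the generator modulo the group of `F`
    have hord : orderOf (g : k.fixingSubgroup ⧸ F.fixingSubgroup.subgroupOf k.fixingSubgroup) =
        n' := by
      have h4 : n' = Nat.card (k.fixingSubgroup ⧸ F.fixingSubgroup.subgroupOf k.fixingSubgroup) := rfl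
      rw [h4]
      refine orderOf_eq_card_of_forall_mem_zpowers fun y => ?_
      obtain ⟨z, rfl⟩ := QuotientGroup.mk_surjective y
      obtain ⟨j, hj⟩ := hγ' z z.2
      refine ⟨j, ?_⟩
      show (g : k.fixingSubgroup ⧸ F.fixingSubgroup.subgroupOf k.fixingSubgroup) ^ j = _
      rw [← QuotientGroup.mk_zpow]
      refine QuotientGroup.eq.2 ?_
      show ((((g ^ j)⁻¹ * z : k.fixingSubgroup)) : Gal(Qb/ℚ)) ∈ F.fixingSubgroup
      have h5 : ((((g ^ j)⁻¹ * z : k.fixingSubgroup)) : Gal(Qb/ℚ)) = (γ ^ j)⁻¹ * z := by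
        rw [Subgroup.coe_mul, Subgroup.coe_inv, Subgroup.coe_zpow]
      rw [h5]
      exact hKL hj
    have hdi : ((n' : ℕ) : ℤ) ∣ i := by
      rw [← hord]
      apply orderOf_dvd_iff_zpow_eq_one.2
      rw [← QuotientGroup.mk_zpow, QuotientGroup.eq_one_iff]
      show ((g ^ i : k.fixingSubgroup) : Gal(Qb/ℚ)) ∈ F.fixingSubgroup
      rw [Subgroup.coe_zpow]
      exact hiF
    obtain ⟨j, hj⟩ := hdi
    have h4 : (x' : k.fixingSubgroup) = g ^ i * ⟨(γ ^ i)⁻¹ * x', hKH hi⟩ := by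
      apply Subtype.ext
      rw [Subgroup.coe_mul, Subgroup.coe_zpow]
      show (x' : Gal(Qb/ℚ)) = γ ^ i * ((γ ^ i)⁻¹ * x')
      rw [mul_inv_cancel_left]
    have h5 : τ x' w = τ (g ^ i) w := by
      conv_lhs => rw [h4]
      rw [map_mul, Module.End.mul_apply]
      congr 1
      exact h1 _ hi w
    have h6 : τ (g ^ i) w = w := by
      rw [hj, zpow_mul, zpow_natCast]
      let St : Subgroup k.fixingSubgroup :=
        { carrier := {y | τ y w = w}
          mul_mem' := fun {b d} hb hd => by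
            show τ (b * d) w = w
            rw [map_mul, Module.End.mul_apply, hd, hb]
          one_mem' := by
            show τ 1 w = w
            rw [map_one]
            rfl
          inv_mem' := fun {b} hb => by
            show τ b⁻¹ w = w
            have hb' : τ b w = w := hb
            conv_lhs => rw [← hb']
            rw [← Module.End.mul_apply, ← map_mul, inv_mul_cancel, map_one]
            rfl }
      have h7 : g ^ n' ∈ St := hh w
      exact (zpow_mem h7 j : (g ^ n') ^ j ∈ St)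
    exact h5.trans h6

end Pool.Agent.V7H53.GP
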