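import Pool.Agent.V7H53.GG.Crit

/-!
# Lower bounds for the dimension
-/

set_option autoImplicit false

namespace Pool.Agent.V7H53.GP

open Subgroup Module IntermediateField Pool.Agent.Q60.MU Pool.Agent.V7H44.MF Pool.Agent.V7H53.TR
open Pool.Agent.V7H53.GG
open scoped Pointwise commutatorElement

variable {p : ℕ} [Fact p.Prime]

/-- A simple representation which is not trivial on a normal subgroup has dimension at least the order
of `p` modulo some prime divisor `ℓ ≠ p` of the index of a subgroup which acts trivially. -/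
theorem exists_prime_le {G : Type} [Group G] {V : Type} [AddCommGroup V] [Module (ZMod p) V]
    [Module.Finite (ZMod p) V] (τ : Representation (ZMod p) G V) (hs : IsSimple τ)
    {L K : Subgroup G} (hLn : L.Normal) (hKL : K ≤ L) (hK : ∀ g ∈ K, ∀ x, τ g x = x)
    (hKf : K.relIndex L ≠ 0) (hL : ¬ ∀ g ∈ L, ∀ x, τ g x = x) :
    ∃ ℓ : ℕ, ℓ.Prime ∧ ℓ ≠ p ∧ ℓ ∣ K.relIndex L ∧ orderOf (p : ZMod ℓ) ≤ finrank (ZMod p) V := by
  classical
  have hp : p.Prime := Fact.out
  have hnt : Nontrivial V := hs.1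
  have hfin : Finite V := Module.finite_of_finite (ZMod p)
  let φ : L →* (Module.End (ZMod p) V)ˣ := MonoidHom.toHomUnits (τ.comp L.subtype)
  have hφ : ∀ (x : L) (v : V), ((φ x : (Module.End (ZMod p) V)ˣ) : Module.End (ZMod p) V) v = τ x v :=
    fun x v => rfl
  have hker : K.subgroupOf L ≤ φ.ker := by
    intro x hx
    rw [MonoidHom.mem_ker]
    apply Units.ext
    apply LinearMap.ext
    intro v
    exact hK x hx v
  have hidx : Nat.card φ.range = φ.ker.index := (Subgroup.index_ker φ).symm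
  have hdvd : Nat.card φ.range ∣ K.relIndex L := by
    rw [hidx]
    exact Subgroup.index_dvd_of_le hker
  have hne0 : Nat.card φ.range ≠ 0 := fun h => hKf (by
    rw [h] at hdvd
    exact Nat.eq_zero_of_zero_dvd hdvd)
  have hfinr : Finite φ.range := Nat.finite_of_card_ne_zero hne0
  by_cases hex : ∃ ℓ : ℕ, ℓ.Prime ∧ ℓ ≠ p ∧ ℓ ∣ Nat.card φ.range
  · obtain ⟨ℓ, hℓ, hne, hd⟩ := hex
    refine ⟨ℓ, hℓ, hne, hd.trans hdvd, ?_⟩
    have hℓf : Fact ℓ.Prime := ⟨hℓ⟩
    obtain ⟨⟨z, x, rfl⟩, hz⟩ := exists_prime_orderOf_dvd_card' ℓ hd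
    have hz' : orderOf (φ x) = ℓ := by
      rw [← hz]
      exact (Subgroup.orderOf_mk (φ x) _).symm
    refine order_le hℓ hne (τ (x : G)) ?_ ?_
    · have h1 := pow_orderOf_eq_one (φ x)
      rw [hz'] at h1
      have h2 := congrArg (fun u : (Module.End (ZMod p) V)ˣ => (u : Module.End (ZMod p) V)) h1
      exact h2
    · intro h1
      have h2 : φ x = 1 := Units.ext h1
      rw [h2, orderOf_one] at hz'
      exact hℓ.one_lt.ne hz'
  · exfalso
    push Not at hex
    -- the image is a `p`-group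
    have hpow : Nat.card φ.range = p ^ (Nat.card φ.range).primeFactorsList.length :=
      Nat.eq_prime_pow_of_unique_prime_dvd hne0 fun {d} hd hdd => by
        by_contra h
        exact hex d hd h hdd
    have hP : IsPGroup p φ.range := IsPGroup.of_card hpow
    have hcard : p ∣ Nat.card V := by
      have h3 := Module.natCard_eq_pow_finrank (K := ZMod p) (V := V)
      rw [Nat.card_zmod] at h3
      rw [h3]
      exact dvd_pow_self p finrank_pos.ne'
    have h0 : (0 : V) ∈ MulAction.fixedPoints φ.range V := fun z => smul_zero z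
    obtain ⟨b, hb, hb0⟩ := hP.exists_fixed_point_of_prime_dvd_card_of_fixed_point V hcard h0
    have hbL : ∀ g ∈ L, τ g b = b := by
      intro g hg
      have := hb ⟨φ ⟨g, hg⟩, ⟨g, hg⟩, rfl⟩
      exact this
    let U : Submodule (ZMod p) V :=
      { carrier := {v | ∀ g ∈ L, τ g v = v}
        add_mem' := fun {a c} ha hc g hg => by rw [map_add, ha g hg, hc g hg]
        zero_mem' := fun g _ => map_zero _
        smul_mem' := fun c v hv g hg => by rw [map_smul, hv g hg] }
    have hU : Stable τ U := by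
      intro g v hv h hh
      have h1 : g⁻¹ * h * g ∈ L := by
        have := hLn.conj_mem h hh g⁻¹
        rwa [inv_inv] at this
      have h2 : τ h (τ g v) = τ g (τ (g⁻¹ * h * g) v) := by
        rw [← Module.End.mul_apply, ← Module.End.mul_apply, ← map_mul, ← map_mul]
        congr 2
        group
      rw [h2, hv _ h1]
    rcases hs.2 U hU with h | h
    · apply hb0
      have : b ∈ U := hbL
      rw [h, Submodule.mem_bot] at this
      exact this.symm
    · apply hL
      intro g hg x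
      have : x ∈ U := by rw [h]; trivial
      exact this g hg

/-- The dimension is at least the smallest order of `p` modulo a prime divisor `ℓ ≠ p` of the
degree. -/
theorem dim_primes {k F N : IntermediateField ℚ Qb} (hN : FiniteDimensional ℚ N) (hkF : k ≤ F)
    (hFN : F ≤ N) (hFk : StableOver k F) {d : ℕ}
    (hd : ∀ ℓ : ℕ, ℓ.Prime → ℓ ≠ p → ℓ * finrank ℚ F ∣ finrank ℚ N → d ≤ orderOf (p : ZMod ℓ)) :
    DimGe p k F N d := by
  intro V _ _ _ τ' h1 h2 h3
  let τ : Representation (ZMod p) k.fixingSubgroup V := τ'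
  have hLH : F.fixingSubgroup ≤ k.fixingSubgroup := fixingSubgroup_le hkF
  have hKL : N.fixingSubgroup ≤ F.fixingSubgroup := fixingSubgroup_le hFN
  have hLn : (F.fixingSubgroup.subgroupOf k.fixingSubgroup).Normal :=
    ⟨fun x hx g => conj_of_stable hFk g g.2 x hx⟩
  have hrel : (N.fixingSubgroup.subgroupOf k.fixingSubgroup).relIndex
      (F.fixingSubgroup.subgroupOf k.fixingSubgroup) = N.fixingSubgroup.relIndex F.fixingSubgroup :=
    relIndex_subgroupOf hLH
  have hmul := relIndex_mul_index hKL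
  have hne : N.fixingSubgroup.relIndex F.fixingSubgroup ≠ 0 := fun h => by
    rw [h, zero_mul] at hmul
    exact index_ne_zero' N hmul.symm
  obtain ⟨ℓ, hℓ, hne', hdvd, hle⟩ := exists_prime_le (p := p) τ h2
    (L := F.fixingSubgroup.subgroupOf k.fixingSubgroup)
    (K := N.fixingSubgroup.subgroupOf k.fixingSubgroup) hLn (fun x hx => hKL hx)
    (fun g hg x => h1 g hg x) (by rw [hrel]; exact hne) (fun h => h3 fun g hg x => h g hg x)
  refine (hd ℓ hℓ hne' ?_).trans hle
  rw [hrel] at hdvd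
  have hF : FiniteDimensional ℚ F := fd_of_le hN hFN
  rw [finrank_eq_fixingSubgroup_index, finrank_eq_fixingSubgroup_index, ← hmul]
  exact Nat.mul_dvd_mul_right hdvd _

/-- If `F` contains the abelian extensions of `k` in `N`, then the dimension is at least two. -/
theorem dim_two_ab {k F N : IntermediateField ℚ Qb} (hN : FiniteDimensional ℚ N) (hkF : k ≤ F)
    (hFN : F ≤ N)
    (hab : ∀ E, k ≤ E → E ≤ N → StableOver k E → CommutesOver k E → E ≤ F) :
    DimGe p k F N 2 := by
  classical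
  intro V _ _ _ τ' h1 h2 h3
  let τ : Representation (ZMod p) k.fixingSubgroup V := τ'
  by_contra hcon
  have hnt : Nontrivial V := h2.1
  have hdim : finrank (ZMod p) V = 1 := by
    have h4 := finrank_pos (R := ZMod p) (M := V)
    omega
  obtain ⟨v, hv, hspan⟩ := finrank_eq_one_iff'.1 hdim
  have hscal : ∀ g, ∃ c : ZMod p, ∀ x, τ g x = c • x := by
    intro g
    obtain ⟨c, hc⟩ := hspan (τ g v)
    refine ⟨c, fun x => ?_⟩
    obtain ⟨b, rfl⟩ := hspan x
    rw [map_smul, ← hc, smul_smul, smul_smul, mul_comm]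
  have hcomm : ∀ g g' x, τ g (τ g' x) = τ g' (τ g x) := by
    intro g g' x
    obtain ⟨c, hc⟩ := hscal g
    obtain ⟨c', hc'⟩ := hscal g'
    rw [hc, hc', hc', hc, smul_smul, smul_smul, mul_comm]
  have hLH : F.fixingSubgroup ≤ k.fixingSubgroup := fixingSubgroup_le hkF
  have hKk : N.fixingSubgroup ≤ k.fixingSubgroup := fixingSubgroup_le (hkF.trans hFN)
  let C : Subgroup Gal(Qb/ℚ) :=
    { carrier := {g | ∃ h : g ∈ k.fixingSubgroup, ∀ x, τ ⟨g, h⟩ x = x}
      mul_mem' := by
        rintro a b ⟨ha, ha'⟩ ⟨hb, hb'⟩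
        refine ⟨Subgroup.mul_mem _ ha hb, fun x => ?_⟩
        have h4 : (⟨a * b, Subgroup.mul_mem _ ha hb⟩ : k.fixingSubgroup) =
          ⟨a, ha⟩ * ⟨b, hb⟩ := rfl
        rw [h4, map_mul, Module.End.mul_apply, hb', ha']
      one_mem' := by
        refine ⟨Subgroup.one_mem _, fun x => ?_⟩
        have h4 : (⟨1, Subgroup.one_mem _⟩ : k.fixingSubgroup) = 1 := rfl
        rw [h4, map_one]
        rfl
      inv_mem' := by
        rintro a ⟨ha, ha'⟩
        refine ⟨Subgroup.inv_mem _ ha, fun x => ?_⟩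
        have h4 : (⟨a⁻¹, Subgroup.inv_mem _ ha⟩ : k.fixingSubgroup) = (⟨a, ha⟩)⁻¹ := rfl
        conv_lhs => rw [h4, ← ha' x]
        rw [← Module.End.mul_apply, ← map_mul, inv_mul_cancel, map_one]
        rfl }
  have hCm : ∀ g, g ∈ C ↔ ∃ h : g ∈ k.fixingSubgroup, ∀ x, τ ⟨g, h⟩ x = x := fun g => Iff.rfl
  have hCk : C ≤ k.fixingSubgroup := fun g hg => ((hCm g).1 hg).1
  have hKC : N.fixingSubgroup ≤ C := fun g hg => (hCm g).2 ⟨hKk hg, fun x => h1 _ hg x⟩
  have hCo : IsOpen (C : Set Gal(Qb/ℚ)) := Subgroup.isOpen_mono hKC N.fixingSubgroup_isOpen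
  have hfix := fix_fixed hCo
  have hcmem : ∀ a ∈ k.fixingSubgroup, ∀ b ∈ k.fixingSubgroup, ⁅a, b⁆ ∈ C := by
    intro a ha b hb
    have hm : ⁅a, b⁆ ∈ k.fixingSubgroup := by
      rw [commutatorElement_def]
      exact Subgroup.mul_mem _ (Subgroup.mul_mem _ (Subgroup.mul_mem _ ha hb)
        (Subgroup.inv_mem _ ha)) (Subgroup.inv_mem _ hb)
    refine (hCm _).2 ⟨hm, fun x => ?_⟩
    have h4 : (⟨⁅a, b⁆, hm⟩ : k.fixingSubgroup) =
        ⟨a, ha⟩ * ⟨b, hb⟩ * (⟨a, ha⟩)⁻¹ * (⟨b, hb⟩)⁻¹ := rfl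
    rw [h4, map_mul, map_mul, map_mul, Module.End.mul_apply, Module.End.mul_apply,
      Module.End.mul_apply, hcomm _ (⟨a, ha⟩)⁻¹]
    rw [← Module.End.mul_apply (τ ⟨a, ha⟩), ← map_mul, mul_inv_cancel, map_one,
      Module.End.one_apply, ← Module.End.mul_apply, ← map_mul, mul_inv_cancel, map_one]
    rfl
  have hmem : ∀ x, x ∈ fixedField C ↔ ∀ w ∈ C, w x = x := fun x => mem_fixedField_iff _ _
  have hE := hab (fixedField C) ((le_iff_le _ _).2 hCk) (by
      rw [← InfiniteGalois.fixedField_fixingSubgroup N]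
      exact fixedField_antitone hKC) (by
      refine fixed_stable fun d hd x hx => ?_
      have h4 : d * x * d⁻¹ = ⁅d, x⁆ * x := by rw [commutatorElement_def]; group
      rw [h4]
      exact C.mul_mem (hcmem d hd x (hCk hx)) hx) (by
      intro σ hσ σ' hσ' x hx
      rw [hmem] at hx
      have h4 : ⁅σ⁻¹, σ'⁻¹⁆ ∈ C := hcmem _ (inv_mem hσ) _ (inv_mem hσ')
      have h5 : σ (σ' x) = σ' (σ (⁅σ⁻¹, σ'⁻¹⁆ x)) := by
        rw [← AlgEquiv.mul_apply, ← AlgEquiv.mul_apply, ← AlgEquiv.mul_apply]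
        congr 1
        rw [commutatorElement_def]
        group
      rw [h5, hx _ h4])
  apply h3
  intro g hg x
  let g' : k.fixingSubgroup := g
  have h6 : (g' : Gal(Qb/ℚ)) ∈ C := by
    rw [← hfix]
    exact fixingSubgroup_le hE hg
  exact ((hCm _).1 h6).2 x

end Pool.Agent.V7H53.GP
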