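import Pool.Agent.V7H53.GG.CritTot
import Pool.Agent.V7H53.GG.Chief

/-!
# Towers with the properties which are used
-/

set_option autoImplicit false

namespace Pool.Agent.V7H53.GP

open Subgroup Module IntermediateField Pool.Agent.Q60.MU Pool.Agent.V7H44.MF Pool.Agent.V7H53.TR
open Pool.Agent.V7H53.GG
open scoped Pointwise commutatorElement

/-- The tower of the fields `R m` of degree `p ^ m`. -/
structure Tw (p : ℕ) (R : ℕ → IntermediateField ℚ Qb) : Prop where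
  fin : ∀ m, FiniteDimensional ℚ (R m)
  nor : ∀ m, (R m).fixingSubgroup.Normal
  idx : ∀ m, (R m).fixingSubgroup.index = p ^ m
  gen : ∀ M, ∃ γ : Gal(Qb/ℚ), ∀ x : Gal(Qb/ℚ), ∃ i : ℤ, (γ ^ i)⁻¹ * x ∈ (R M).fixingSubgroup
  anti : Antitone fun m => (R m).fixingSubgroup
  dec : FinDec R
  off : ∀ A : ValuationSubring Qb, (p : Qb) ∉ A.nonunits → ∀ σ ∈ inertia A, ∀ m,
    σ ∈ (R m).fixingSubgroup
  on : ∀ A : ValuationSubring Qb, (p : Qb) ∈ A.nonunits → ∀ (σ : Gal(Qb/ℚ)) m,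
    ∃ y ∈ inertia A, y⁻¹ * σ ∈ (R m).fixingSubgroup

variable {p : ℕ} [Fact p.Prime] {R : ℕ → IntermediateField ℚ Qb} (hR : Tw p R)

omit [Fact p.Prime] in
include hR in
theorem Tw.opn (m : ℕ) : IsOpen ((R m).fixingSubgroup : Set Gal(Qb/ℚ)) := by
  have := hR.fin m
  exact (R m).fixingSubgroup_isOpen

omit [Fact p.Prime] in
include hR in
theorem Tw.cyc (m : ℕ) :
    letI := hR.nor m
    IsCyclic (Gal(Qb/ℚ) ⧸ (R m).fixingSubgroup) := by
  have hN := hR.nor m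
  obtain ⟨γ, hγ⟩ := hR.gen m
  refine ⟨(γ : Gal(Qb/ℚ) ⧸ (R m).fixingSubgroup), fun y => ?_⟩
  obtain ⟨x, rfl⟩ := QuotientGroup.mk_surjective y
  obtain ⟨i, hi⟩ := hγ x
  refine ⟨i, ?_⟩
  show (γ : Gal(Qb/ℚ) ⧸ (R m).fixingSubgroup) ^ i = _
  rw [← QuotientGroup.mk_zpow]
  exact QuotientGroup.eq.2 hi

end Pool.Agent.V7H53.GP
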