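import Pool.Agent.V7H53.GP.Inert
import Pool.Agent.V7H53.GP.Tw
import Pool.Agent.V7H53.GP.Defs

/-!
# The cyclotomic tower for all primes
-/

set_option autoImplicit false

namespace Pool.Agent.V7H53.GP

open Module IntermediateField NumberField Ideal Pool.Agent.Q60.MU Pool.Agent.V7H44.MF
open Pool.Agent.V7H53.TR Pool.Agent.H639R3
open Pool.Agent.V7H53.GG hiding residue_cyc lift_residue inertia_surj
open scoped Pointwise

/-- The units modulo a power of two. -/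
theorem units_two (n : ℕ) : ∃ (g : (ZMod (2 ^ (n + 2)))ˣ),
    ∀ u : (ZMod (2 ^ (n + 2)))ˣ, ∃ i : ℤ, u = g ^ i ∨ u = -g ^ i := by
  have hnz : NeZero (2 ^ (n + 2)) := ⟨by positivity⟩
  have h5 : orderOf (5 : ZMod (2 ^ (n + 2))) = 2 ^ n := ZMod.orderOf_five n
  have hunit : IsUnit (5 : ZMod (2 ^ (n + 2))) := by
    refine IsUnit.of_pow_eq_one (n := 2 ^ n) ?_ (by positivity)
    rw [← h5]
    exact pow_orderOf_eq_one _
  obtain ⟨g, hg⟩ := hunit
  have hgo : orderOf g = 2 ^ n := by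
    rw [← orderOf_units, hg, h5]
  have hcard : Nat.card (ZMod (2 ^ (n + 2)))ˣ = 2 ^ (n + 1) := by
    rw [Nat.card_eq_fintype_card, ZMod.card_units_eq_totient, Nat.totient_prime_pow Nat.prime_two
      (by omega)]
    norm_num
  have hH : (Subgroup.zpowers g).index = 2 := by
    have h1 := (Subgroup.zpowers g).card_mul_index
    rw [Nat.card_zpowers, hgo, hcard] at h1
    exact Nat.eq_of_mul_eq_mul_left (show 0 < 2 ^ n by positivity) (h1.trans (pow_succ 2 n))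
  have hdvd : (4 : ℕ) ∣ 2 ^ (n + 2) := ⟨2 ^ n, by rw [pow_add]; ring⟩
  have hneg : (-1 : (ZMod (2 ^ (n + 2)))ˣ) ∉ Subgroup.zpowers g := by
    rintro ⟨i, hi⟩
    have h1 : Units.map (ZMod.castHom hdvd (ZMod 4)).toMonoidHom g = 1 := by
      apply Units.ext
      rw [Units.coe_map, hg]
      show (ZMod.castHom hdvd (ZMod 4)) 5 = 1
      rw [map_ofNat]
      rfl
    have h2 := congrArg (Units.map (ZMod.castHom hdvd (ZMod 4)).toMonoidHom) hi
    have h3 : (fun x : ℤ => g ^ x) i = g ^ i := rfl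
    rw [h3, map_zpow, h1, one_zpow] at h2
    have h4 := congrArg (fun u : (ZMod 4)ˣ => (u : ZMod 4)) h2
    have h5 : ((1 : (ZMod 4)ˣ) : ZMod 4) = (ZMod.castHom hdvd (ZMod 4)) (-1) := h4
    rw [map_neg, map_one] at h5
    exact absurd h5 (by decide)
  refine ⟨g, fun u => ?_⟩
  by_cases hu : u ∈ Subgroup.zpowers g
  · obtain ⟨i, hi⟩ := hu
    exact ⟨i, Or.inl hi.symm⟩
  · have h1 := (Subgroup.mul_mem_iff_of_index_two hH (a := -1) (b := u)).2
      ⟨fun h => absurd h hneg, fun h => absurd h hu⟩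
    obtain ⟨i, hi⟩ := h1
    have h3 : (fun x : ℤ => g ^ x) i = g ^ i := rfl
    rw [h3] at hi
    refine ⟨i, Or.inr ?_⟩
    rw [hi, neg_mul, one_mul, neg_neg]

/-- The order of a number modulo the powers of two. -/
theorem pow_le_order_two {ℓ : ℕ} (hℓ : ℓ.Prime) (hne : ℓ ≠ 2)
    {n f : ℕ} (hf : f ≠ 0) (h : 2 ^ n ∣ ℓ ^ f - 1) : 2 ^ n ≤ (ℓ ^ 2 - 1) * f := by
  have hodd : Odd ℓ := hℓ.odd_of_ne_two hne
  have h2ℓ : ¬ 2 ∣ ℓ := fun h => (Nat.not_even_iff_odd.2 hodd) (even_iff_two_dvd.2 h)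
  have hℓ1 : 1 < ℓ := hℓ.one_lt
  have h2 : 2 ∣ ℓ - 1 := by
    obtain ⟨j, hj⟩ := hodd
    exact ⟨j, by omega⟩
  have hdvd : 2 ^ n ∣ ℓ ^ (2 * f) - 1 := by
    refine h.trans ?_
    rw [mul_comm, pow_mul]
    have := Nat.sub_dvd_pow_sub_pow (ℓ ^ f) 1 2
    rwa [one_pow] at this
  have h1 := padicValNat.pow_two_sub_pow hℓ1 h2 h2ℓ (n := 2 * f) (by omega) (even_two_mul f)
  rw [one_pow] at h1
  have hxf : ℓ ^ (2 * f) - 1 ≠ 0 := by
    have := Nat.one_lt_pow (n := 2 * f) (by omega) hℓ1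
    omega
  have h3 : n ≤ padicValNat 2 (ℓ ^ (2 * f) - 1) := (padicValNat_dvd_iff_le hxf).1 hdvd
  have h4 : 2 ^ (n + 1) ≤ (ℓ + 1) * (ℓ - 1) * (2 * f) := by
    calc 2 ^ (n + 1) ≤ 2 ^ (padicValNat 2 (ℓ + 1) + padicValNat 2 (ℓ - 1) + padicValNat 2 (2 * f)) :=
          Nat.pow_le_pow_right (by norm_num) (by omega)
      _ = 2 ^ padicValNat 2 (ℓ + 1) * 2 ^ padicValNat 2 (ℓ - 1) * 2 ^ padicValNat 2 (2 * f) := by
          rw [pow_add, pow_add]
      _ ≤ _ := by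
          apply Nat.mul_le_mul
          · apply Nat.mul_le_mul
            · exact Nat.le_of_dvd (by omega) pow_padicValNat_dvd
            · exact Nat.le_of_dvd (by omega) pow_padicValNat_dvd
          · exact Nat.le_of_dvd (by omega) pow_padicValNat_dvd
  have h5 : ℓ ^ 2 - 1 = (ℓ + 1) * (ℓ - 1) := by
    have := Nat.sq_sub_sq ℓ 1
    rwa [one_pow] at this
  rw [h5]
  rw [pow_succ] at h4
  have h6 : (ℓ + 1) * (ℓ - 1) * (2 * f) = (ℓ + 1) * (ℓ - 1) * f * 2 := by ring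
  rw [h6] at h4
  exact Nat.le_of_mul_le_mul_right h4 (by norm_num)

/-- The number of primes over `ℓ` in the field of the roots of unity of order `2^(m+1)`. -/
theorem ncard_le_two {ℓ : ℕ} (hℓ : ℓ.Prime) (m : ℕ)
    (K : Type) [Field K] [NumberField K] [IsCyclotomicExtension {2 ^ (m + 1)} ℚ K] :
    ((span {(ℓ : ℤ)}).primesOver (𝓞 K)).ncard ≤ ℓ ^ 2 := by
  have hp : Nat.Prime 2 := Nat.prime_two
  have hpf : Fact (Nat.Prime 2) := ⟨hp⟩
  have hℓf : Fact ℓ.Prime := ⟨hℓ⟩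
  have hpos : 0 < ℓ ^ 2 := pow_pos hℓ.pos _
  by_cases hne : ℓ = 2
  · subst hne
    have h0 := IsCyclotomicExtension.Rat.ncard_primesOver_of_prime_pow 2 m K
    rw [h0]
    norm_num
  have hG : IsGalois ℚ K := IsCyclotomicExtension.isGalois {2 ^ (m + 1)} ℚ K
  have hnz : NeZero (2 ^ (m + 1)) := ⟨(pow_pos hp.pos _).ne'⟩
  have hnd : ¬ ℓ ∣ 2 ^ (m + 1) := by
    intro h
    exact hne ((Nat.prime_dvd_prime_iff_eq hℓ hp).1 (hℓ.dvd_of_dvd_pow h))
  have h1 := ncard_primesOver_mul_ramificationIdxIn_mul_inertiaDegIn (span {(ℓ : ℤ)}) (𝓞 K) Gal(K/ℚ)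
  rw [IsCyclotomicExtension.Rat.ramificationIdxIn_eq_of_not_dvd (m := 2 ^ (m + 1)) ℓ K hnd,
    IsCyclotomicExtension.Rat.inertiaDegIn_eq_of_not_dvd (m := 2 ^ (m + 1)) ℓ K hnd, one_mul,
    IsGalois.card_aut_eq_finrank,
    IsCyclotomicExtension.finrank K (Polynomial.cyclotomic.irreducible_rat (NeZero.pos (2 ^ (m + 1))))]
    at h1
  set f := orderOf ((ℓ : ℕ) : ZMod (2 ^ (m + 1))) with hf
  have htot : Nat.totient (2 ^ (m + 1)) ≤ 2 ^ (m + 1) := Nat.totient_le _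
  have htot0 : 0 < Nat.totient (2 ^ (m + 1)) := Nat.totient_pos.2 (NeZero.pos _)
  have hf0 : f ≠ 0 := by
    intro h
    rw [h, mul_zero] at h1
    omega
  have hdvd : 2 ^ (m + 1) ∣ ℓ ^ f - 1 := by
    have h2 : ((ℓ : ℕ) : ZMod (2 ^ (m + 1))) ^ f = 1 := pow_orderOf_eq_one _
    have h3 : ((ℓ ^ f : ℕ) : ZMod (2 ^ (m + 1))) = ((1 : ℕ) : ZMod (2 ^ (m + 1))) := by
      push_cast
      exact h2
    have h4 := (ZMod.natCast_eq_natCast_iff _ _ _).1 h3
    exact (Nat.modEq_iff_dvd' (Nat.one_le_pow _ _ hℓ.pos)).1 h4.symm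
  have h2 := pow_le_order_two hℓ hne hf0 hdvd
  have h3 : ((span {(ℓ : ℤ)}).primesOver (𝓞 K)).ncard * f ≤ (ℓ ^ 2 - 1) * f := by
    rw [h1]
    exact htot.trans h2
  have h4 := Nat.le_of_mul_le_mul_right h3 (Nat.pos_of_ne_zero hf0)
  omega

/-- Every prime number has boundedly many primes above it in the tower of the roots of unity. -/
theorem finDec_cyc {p : ℕ} (hp : p.Prime) : FinDec fun m => cyc p m := by
  classical
  rcases eq_or_ne p 2 with h2 | h2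
  · subst h2
    intro ℓ hℓ
    refine ⟨ℓ ^ 2, fun m => ?_⟩
    have hfd := cyc_finite hp m
    have hcy := cyc_isCyclotomic hp m
    have nE : NumberField (cyc 2 m) := ⟨⟩
    have hfin : ((span {(ℓ : ℤ)}).primesOver (𝓞 (cyc 2 m))).Finite := by
      have hℓf : Fact ℓ.Prime := ⟨hℓ⟩
      have : (span {(ℓ : ℤ)}).IsPrime := by
        have := Int.prime_iff_natAbs_prime.2 (by simpa using hℓ : (ℓ : ℤ).natAbs.Prime)
        exact (span_singleton_prime this.ne_zero).2 this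
      exact Algebra.QuasiFinite.finite_primesOver _
    let S : Set (Ideal (𝓞 (cyc 2 m))) := {P | ∃ A : ValuationSubring Qb, (ℓ : Qb) ∈ A.nonunits ∧
      below A (cyc 2 m) = P}
    have hS : S ⊆ (span {(ℓ : ℤ)}).primesOver (𝓞 (cyc 2 m)) := by
      rintro P ⟨A, hA, rfl⟩
      exact below_mem hℓ hA _
    have hSf : S.Finite := hfin.subset hS
    choose! g hg using (fun P (hP : P ∈ S) => hP : ∀ P ∈ S, ∃ A : ValuationSubring Qb,
      (ℓ : Qb) ∈ A.nonunits ∧ below A (cyc 2 m) = P)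
    refine ⟨hSf.toFinset.image g, ?_, ?_⟩
    · refine Finset.card_image_le.trans ?_
      rw [← Set.ncard_eq_toFinset_card S hSf]
      exact (Set.ncard_le_ncard hS hfin).trans (ncard_le_two hℓ m (cyc 2 m))
    · intro A hA
      have hPS : below A (cyc 2 m) ∈ S := ⟨A, hA, rfl⟩
      obtain ⟨h1, h2⟩ := hg _ hPS
      refine ⟨g (below A (cyc 2 m)), Finset.mem_image.2 ⟨_, hSf.mem_toFinset.2 hPS, rfl⟩, ?_⟩
      obtain ⟨σ, hσ, h3⟩ := conj_of_below hℓ hA h1 (cyc 2 m) h2.symm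
      exact ⟨σ, hσ, h3⟩
  · exact finDec hp h2 fun m => le_rfl

theorem mem_cyc_of_zeta {p m : ℕ} {ζ : Qb} (hcyc : cyc p m = IntermediateField.adjoin ℚ {ζ})
    {σ : Gal(Qb/ℚ)} (key : σ ζ = ζ) : σ ∈ (cyc p m).fixingSubgroup := by
  rw [hcyc, IntermediateField.mem_fixingSubgroup_iff]
  intro x hx
  have h1 : IntermediateField.adjoin ℚ {ζ} ≤ fixedField (Subgroup.zpowers σ) := by
    rw [IntermediateField.adjoin_simple_le_iff, mem_fixedField_iff]
    rintro _ ⟨i, rfl⟩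
    have h2 : σ ∈ MulAction.stabilizer Gal(Qb/ℚ) ζ := key
    exact (Subgroup.zpow_mem (MulAction.stabilizer Gal(Qb/ℚ) ζ) h2 i)
  exact (mem_fixedField_iff _ _).1 (h1 hx) σ (Subgroup.mem_zpowers σ)

/-- The automorphism `-1` is trivial on the real fields. -/
theorem real_fixed {n : ℕ} (hn : n ≠ 0) {ζ : Qb} (hζ : IsPrimitiveRoot ζ n)
    {R' : IntermediateField ℚ Qb} (hR' : R' ≤ IntermediateField.adjoin ℚ {ζ}) (hreal : IsReal R')
    {σ : Gal(Qb/ℚ)} (key : σ ζ = ζ⁻¹) : σ ∈ R'.fixingSubgroup := by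
  have halg : Algebra.IsAlgebraic ℚ Qb := AlgebraicClosure.isAlgebraic ℚ
  obtain ⟨ι⟩ : Nonempty (Qb →ₐ[ℚ] ℂ) := ⟨IsAlgClosed.lift⟩
  let f : Qb →+* ℂ := (starRingEnd ℂ).comp ι.toRingHom
  let g : Qb →+* ℂ := ι.toRingHom.comp (σ : Qb →+* Qb)
  let T : IntermediateField ℚ Qb := (RingHom.eqLocusField f g).toIntermediateField (fun q => by
    show f (algebraMap ℚ Qb q) = g (algebraMap ℚ Qb q)
    have h1 : (f.comp (algebraMap ℚ Qb)) = g.comp (algebraMap ℚ Qb) := RingHom.ext_rat _ _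
    exact DFunLike.congr_fun h1 q)
  have hmem : ∀ y, y ∈ T ↔ (starRingEnd ℂ) (ι y) = ι (σ y) := fun y => Iff.rfl
  have hζT : ζ ∈ T := by
    rw [hmem, key, map_inv₀]
    have h1 : (ι ζ) ^ n = 1 := by rw [← map_pow, hζ.pow_eq_one, map_one]
    exact (Complex.inv_eq_conj (Complex.norm_eq_one_of_pow_eq_one h1 hn)).symm
  have hle : IntermediateField.adjoin ℚ {ζ} ≤ T := by
    rw [IntermediateField.adjoin_simple_le_iff]
    exact hζT
  rw [IntermediateField.mem_fixingSubgroup_iff]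
  intro y hy
  have h1 := (hmem y).1 (hle (hR' hy))
  have h2 : (ι y).im = 0 := hreal (ι.toRingHom.comp (algebraMap R' Qb)) ⟨y, hy⟩
  rw [Complex.conj_eq_iff_im.2 h2] at h1
  exact (ι.toRingHom.injective h1).symm

theorem gen_real {p : ℕ} [Fact p.Prime] (M : ℕ) : ∃ γ : Gal(Qb/ℚ), ∀ x : Gal(Qb/ℚ), ∃ i : ℤ,
    ∀ R' : IntermediateField ℚ Qb, R' ≤ cyc p (M + 1) → IsReal R' →
      (γ ^ i)⁻¹ * x ∈ R'.fixingSubgroup := by
  have hp : p.Prime := Fact.out
  rcases eq_or_ne p 2 with h2 | h2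
  · subst h2
    have h0 := cyc_isCyclotomic hp (M + 1)
    have hnz : NeZero (2 ^ (M + 1 + 1)) := ⟨(pow_pos hp.pos _).ne'⟩
    have hG : IsGalois ℚ (cyc 2 (M + 1)) :=
      IsCyclotomicExtension.isGalois {2 ^ (M + 1 + 1)} ℚ (cyc 2 (M + 1))
    have hnorm : _root_.Normal ℚ (cyc 2 (M + 1)) := hG.to_normal
    have hzs := IsCyclotomicExtension.zeta_spec (2 ^ (M + 1 + 1)) ℚ (cyc 2 (M + 1))
    set z : cyc 2 (M + 1) := IsCyclotomicExtension.zeta (2 ^ (M + 1 + 1)) ℚ (cyc 2 (M + 1)) with hz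
    let e := IsCyclotomicExtension.autEquivPow (n := 2 ^ (M + 1 + 1)) (K := ℚ) (cyc 2 (M + 1))
      (Polynomial.cyclotomic.irreducible_rat (NeZero.pos (2 ^ (M + 1 + 1))))
    have he : ∀ f : Gal((cyc 2 (M + 1))/ℚ), z ^ ((e f : (ZMod (2 ^ (M + 1 + 1)))ˣ) :
        ZMod (2 ^ (M + 1 + 1))).val = f z := fun f => hzs.autToPow_spec ℚ f
    have hζ : IsPrimitiveRoot (z : Qb) (2 ^ (M + 1 + 1)) :=
      hzs.map_of_injective (f := algebraMap (cyc 2 (M + 1)) Qb)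
        (algebraMap (cyc 2 (M + 1)) Qb).injective
    have hcyc : cyc 2 (M + 1) = IntermediateField.adjoin ℚ {(z : Qb)} := by
      refine le_antisymm ?_ ?_
      · unfold cyc
        rw [IntermediateField.adjoin_le_iff]
        intro w hw
        obtain ⟨i, -, hi⟩ := hζ.eq_pow_of_pow_eq_one hw
        rw [← hi]
        exact pow_mem (IntermediateField.mem_adjoin_simple_self ℚ (z : Qb)) i
      · rw [IntermediateField.adjoin_simple_le_iff]
        exact z.2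
    obtain ⟨g, hg⟩ := units_two M
    obtain ⟨γ, hγ⟩ := AlgEquiv.restrictNormalHom_surjective (F := ℚ) (K₁ := cyc 2 (M + 1))
      (E := Qb) (e.symm g)
    refine ⟨γ, fun x => ?_⟩
    obtain ⟨i, hi⟩ := hg (e (AlgEquiv.restrictNormalHom (cyc 2 (M + 1)) x))
    refine ⟨i, fun R' hR' hreal => ?_⟩
    set σ : Gal(Qb/ℚ) := (γ ^ i)⁻¹ * x with hσ
    have h1 : e (AlgEquiv.restrictNormalHom (cyc 2 (M + 1)) σ) =
        (g ^ i)⁻¹ * e (AlgEquiv.restrictNormalHom (cyc 2 (M + 1)) x) := by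
      rw [hσ, map_mul, map_inv, map_zpow, hγ, map_mul, map_inv, map_zpow, MulEquiv.apply_symm_apply]
    have h3 := he (AlgEquiv.restrictNormalHom (cyc 2 (M + 1)) σ)
    have h4 : ((AlgEquiv.restrictNormalHom (cyc 2 (M + 1)) σ z : cyc 2 (M + 1)) : Qb) = σ z :=
      AlgEquiv.restrictNormal_commutes σ (cyc 2 (M + 1)) z
    have h5 : σ (z : Qb) = (z : Qb) ^ ((e (AlgEquiv.restrictNormalHom (cyc 2 (M + 1)) σ) :
        (ZMod (2 ^ (M + 1 + 1)))ˣ) : ZMod (2 ^ (M + 1 + 1))).val := by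
      rw [← h4, ← h3]
      rfl
    rcases hi with hi | hi
    · rw [h1, hi, inv_mul_cancel] at h5
      have h6 : σ (z : Qb) = z := by
        rw [h5]
        have h7 : (((1 : (ZMod (2 ^ (M + 1 + 1)))ˣ) : ZMod (2 ^ (M + 1 + 1)))).val = 1 := by
          rw [Units.val_one]
          have : Fact (1 < 2 ^ (M + 1 + 1)) := ⟨Nat.one_lt_pow (by omega) (by norm_num)⟩
          exact ZMod.val_one _
        rw [h7, pow_one]
      exact fixingSubgroup_le hR' (mem_cyc_of_zeta hcyc h6)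
    · rw [h1, hi, mul_neg, inv_mul_cancel] at h5
      have h6 : σ (z : Qb) = (z : Qb)⁻¹ := by
        rw [h5]
        have h7 : (((-1 : (ZMod (2 ^ (M + 1 + 1)))ˣ) : ZMod (2 ^ (M + 1 + 1)))).val + 1 =
            2 ^ (M + 1 + 1) := by
          rw [Units.val_neg, Units.val_one]
          have := ZMod.val_neg_one (2 ^ (M + 1 + 1) - 1)
          have h8 : 2 ^ (M + 1 + 1) - 1 + 1 = 2 ^ (M + 1 + 1) :=
            Nat.sub_add_cancel (Nat.one_le_pow _ _ (by norm_num))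
          rw [Nat.succ_eq_add_one, h8] at this
          rw [this, h8]
        refine eq_inv_of_mul_eq_one_left ?_
        rw [← pow_succ, h7, hζ.pow_eq_one]
      rw [hcyc] at hR'
      exact real_fixed (by positivity) hζ hR' hreal h6
  · obtain ⟨γ, hγ⟩ := exists_cyc_gen (p := p) h2 (M + 1)
    refine ⟨γ, fun x => ?_⟩
    obtain ⟨i, hi⟩ := hγ x
    exact ⟨i, fun R' hR' _ => fixingSubgroup_le hR' hi⟩

theorem tw_of_real {p : ℕ} [Fact p.Prime] {R : ℕ → IntermediateField ℚ Qb} (hR : IsZpTower p R) :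
    Tw p R := by
  have hp : p.Prime := Fact.out
  have hfin : ∀ m, FiniteDimensional ℚ (R m) := fun m =>
    have := cyc_finite hp (m + 1)
    fd_of_le this (hR m).1
  have hidx : ∀ m, (R m).fixingSubgroup.index = p ^ m := fun m => by
    rw [← finrank_eq_fixingSubgroup_index]
    exact (hR m).2.1
  have hnor : ∀ m, (R m).fixingSubgroup.Normal := by
    intro m
    have h0 := cyc_isCyclotomic hp (m + 1)
    have h1 := IsCyclotomicExtension.isAbelianGalois {p ^ (m + 1 + 1)} ℚ (cyc p (m + 1))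
    have h2 := IsAbelianGalois.of_algHom (K := ℚ) (L := R m) (M := cyc p (m + 1))
      (inclusion (hR m).1)
    exact (InfiniteGalois.normal_iff_isGalois (R m)).2 h2.toIsGalois
  have hgen : ∀ M, ∃ γ : Gal(Qb/ℚ), ∀ x : Gal(Qb/ℚ), ∃ i : ℤ,
      ∀ m ≤ M, (γ ^ i)⁻¹ * x ∈ (R m).fixingSubgroup := by
    intro M
    obtain ⟨γ, hγ⟩ := gen_real (p := p) M
    refine ⟨γ, fun x => ?_⟩
    obtain ⟨i, hi⟩ := hγ x
    exact ⟨i, fun m hm => hi (R m) ((hR m).1.trans (cyc_mono (Nat.add_le_add_right hm 1)))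
      (hR m).2.2⟩
  refine ⟨hfin, hnor, hidx, fun M => ?_, ?_, ?_, ?_, ?_⟩
  · obtain ⟨γ, hγ⟩ := hgen M
    refine ⟨γ, fun x => ?_⟩
    obtain ⟨i, hi⟩ := hγ x
    exact ⟨i, hi M le_rfl⟩
  · intro m M hmM x hx
    have hN := hnor m
    have hN' := hnor M
    obtain ⟨γ, hγ⟩ := hgen M
    obtain ⟨i, hi⟩ := hγ x
    have h1 := hi M le_rfl
    have h2 := hi m hmM
    have h3 : γ ^ i ∈ (R M).fixingSubgroup := by
      have h4 : γ ^ i = x * ((γ ^ i)⁻¹ * x)⁻¹ := by group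
      rw [h4]
      exact Subgroup.mul_mem _ hx (Subgroup.inv_mem _ h1)
    have hord : orderOf (γ : Gal(Qb/ℚ) ⧸ (R M).fixingSubgroup) = p ^ M := by
      rw [← hidx M]
      refine (orderOf_eq_card_of_forall_mem_zpowers fun y => ?_)
      obtain ⟨z, rfl⟩ := QuotientGroup.mk_surjective y
      obtain ⟨j, hj⟩ := hγ z
      refine ⟨j, ?_⟩
      show (γ : Gal(Qb/ℚ) ⧸ (R M).fixingSubgroup) ^ j = _
      rw [← QuotientGroup.mk_zpow]
      exact QuotientGroup.eq.2 (hj M le_rfl)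
    have h4 : ((p ^ M : ℕ) : ℤ) ∣ i := by
      rw [← hord]
      apply orderOf_dvd_iff_zpow_eq_one.2
      rw [← QuotientGroup.mk_zpow, QuotientGroup.eq_one_iff]
      exact h3
    have h5 : γ ^ i ∈ (R m).fixingSubgroup := by
      obtain ⟨j, hj⟩ := (Int.natCast_dvd_natCast.2 (pow_dvd_pow p hmM)).trans h4
      rw [hj, zpow_mul, zpow_natCast]
      refine Subgroup.zpow_mem _ ?_ j
      rw [← hidx m]
      exact Subgroup.pow_index_mem _ γ
    have h6 : x = γ ^ i * ((γ ^ i)⁻¹ * x) := by group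
    show x ∈ (R m).fixingSubgroup
    rw [h6]
    exact Subgroup.mul_mem _ h5 h2
  · intro ℓ hℓ
    obtain ⟨t, ht⟩ := finDec_cyc hp ℓ hℓ
    refine ⟨t, fun m => ?_⟩
    obtain ⟨T, h1, h2⟩ := ht (m + 1)
    refine ⟨T, h1, fun A hA => ?_⟩
    obtain ⟨B, hB, σ, hσ, h⟩ := h2 A hA
    exact ⟨B, hB, σ, fixingSubgroup_le (hR m).1 hσ, h⟩
  · intro A hA σ hσ m
    exact fixingSubgroup_le (hR m).1 (inertia_cyc hA hσ (m + 1))
  · intro A hA σ m
    obtain ⟨y, hy, h⟩ := inertia_surj hA σ (m + 1)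
    exact ⟨y, hy, fixingSubgroup_le (hR m).1 h⟩

end Pool.Agent.V7H53.GP
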