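import Pool.Agent.V7H53.GP.Port
import Pool.Agent.V7H53.GP.Two
import Pool.Agent.V7H53.GP.Cyc

/-!
# Abelian extensions of imaginary quadratic fields: the theorem
-/

set_option autoImplicit false

namespace Pool.Agent.V7H53.GP

open Module IntermediateField Pool.Agent.Q60.MU Pool.Agent.V7H44.MF Pool.Agent.V7H53.TR
open Pool.Agent.V7H53.GG hiding bdd_up bdd_sub exists_degree base_field layer_lt one_level_from layer_bdd layer_level_from criterion_from numerical_from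

theorem final {p : ℕ} [Fact p.Prime] {R : ℕ → IntermediateField ℚ Qb} (hR : IsZpTower p R)
    {κ k F K : IntermediateField ℚ Qb} (h : IsAbelianLayer κ k F K) {m₀ : ℕ}
    (hm₀ : BaseLevel p K m₀) :
    (∃ F', IsPLayer p κ F K F') ∧
    (∀ F', IsPLayer p κ F K F' → ∀ d, DimGe p κ F K d →
      MainPartFrom p ∅ R F K F' d m₀ ∧ AbelianPart p ∅ R F K F' d m₀) ∧
    AbelianDimPart p κ F K := by
  obtain ⟨-, -, hN, -, hκk, hkF, hFN, hFk, hNk⟩ := h
  have hκF := hκk.trans hkF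
  have T : Tw p R := tw_of_real hR
  have hS : ∀ ℓ ∈ (∅ : Set ℕ), ℓ.Prime := fun _ h => absurd h (Set.notMem_empty _)
  have hpS : p ∉ (∅ : Set ℕ) := Set.notMem_empty _
  have gap : ∀ F', IsPLayer p κ F K F' → ∀ d, DimGe p κ F K d → Bdd p ∅ R F → ∀ E ≤ K,
      ¬ Bdd p ∅ R E → ∀ m > m₀, GapFrom p ∅ R F' K d m₀ m := by
    intro F' hF' d hd hF E hE hnE m hm
    by_contra hgap
    exact hnE (bdd_sub T hN hE
      ((layer_level_from hS hpS T hN hκF hNk hm₀ hF' hd hm hgap).bdd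
        (layer_bdd T hN hκF hF' hF)))
  have hex : ∃ F', IsPLayer p κ F K F' := by
    obtain ⟨F', h1, h2, h3, h4, h5⟩ := exists_layer (p := p) hN hFN hFk
    exact ⟨F', h1, h2, h3, h4, h5⟩
  refine ⟨hex, fun F' hF' d hd => ⟨⟨fun m hm h =>
    layer_level_from hS hpS T hN hκF hNk hm₀ hF' hd hm h, fun hd0 =>
    criterion_from hS hpS T hN hκF hNk hm₀ hF' hd hd0, gap F' hF' d hd,
    fun hF m hm r n n₀ hn hn₀ hr hlt E hE => bdd_sub T hN hE
      (numerical_from hS hpS T hN hκF hNk hm₀ hF' hd hF hm hn hn₀ hr hlt)⟩,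
    fun hab hFa => ?_⟩,
    fun d hd => dim_primes hN hκF hFN hFk fun ℓ hℓ hne hdvd => ?_,
    fun hab => dim_two_ab hN hκF hFN hab, fun hcyc ℓ a c hℓ hF hdvd =>
    dim_cyclic hN hκF hFN hFk hNk hcyc hℓ hF ⟨c, ?_⟩⟩
  rotate_left
  · obtain ⟨c, hc⟩ := hdvd
    refine hd ℓ c hℓ hne ?_
    unfold RelDeg
    rw [hc]
    ring
  · unfold RelDeg at hdvd
    rw [hdvd]
    ring
  have hF : Bdd p ∅ R F := hab F (fd_of_le hN hFN) hFa
  refine ⟨fun E hE => ?_, fun hd0 => ?_⟩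
  · by_cases hEb : Bdd p ∅ R E
    · exact Or.inl hEb
    · exact Or.inr (gap F' hF' d hd hF E hE hEb)
  · rw [criterion_from hS hpS T hN hκF hNk hm₀ hF' hd hd0]
    exact ⟨fun h => h.2, fun h => ⟨hF, h⟩⟩

end Pool.Agent.V7H53.GP
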