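import Pool.Agent.V7H53.GG.Inert

/-!
# The roots of unity of order a power of `p` are totally ramified above `p`, for all primes `p`
-/

set_option autoImplicit false

namespace Pool.Agent.V7H53.GP

open Module IntermediateField NumberField Pool.Agent.Q60.MU Pool.Agent.V7H44.MF
open Pool.Agent.V7H53.TR Pool.Agent.H639R3
open Pool.Agent.V7H53.GG hiding residue_cyc lift_residue inertia_surj
open scoped Pointwise

variable {p : ℕ} [Fact p.Prime]

/-- the residue field extension is trivial -/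
theorem residue_cyc {A : ValuationSubring Qb} (hA : (p : Qb) ∈ A.nonunits) {σ : Gal(Qb/ℚ)}
    (hσ : σ • A = A) (m : ℕ) (x : Qb) (hx : x ∈ cyc p m) (hxi : IsIntegral ℤ x) :
    σ x - x ∈ A.nonunits := by
  have hp : p.Prime := Fact.out
  have hnz : NeZero (p ^ (m + 1)) := ⟨(pow_pos hp.pos _).ne'⟩
  have hcy := cyc_isCyclotomic hp m
  have hfd := cyc_finite hp m
  have nE : NumberField (cyc p m) := ⟨⟩
  obtain ⟨ζ, hζ, hcyc⟩ := exists_zeta hp m
  have hζE : ζ ∈ cyc p m := by
    rw [hcyc]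
    exact mem_adjoin_simple_self ℚ ζ
  have hζ0 : ζ ≠ 0 := hζ.ne_zero (pow_pos hp.pos _).ne'
  have hζi : IsIntegral ℤ ζ := hζ.isIntegral (pow_pos hp.pos _)
  have hζA : ζ ∈ A := Pool.Agent.Q60.MU.integral_mem A hζi
  -- the root of unity
  have key : σ ζ - ζ ∈ A.nonunits := by
    have h1 : (σ ζ) ^ p ^ (m + 1) = 1 := by rw [← map_pow, hζ.pow_eq_one, map_one]
    have h2 : (σ ζ * ζ⁻¹) ^ p ^ (m + 1) = 1 := by
      rw [mul_pow, h1, inv_pow, hζ.pow_eq_one, inv_one, mul_one]
    set η : Qb := σ ζ * ζ⁻¹ with hη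
    have hηi : IsIntegral ℤ η := by
      refine IsIntegral.of_pow (pow_pos hp.pos (m + 1)) ?_
      rw [h2]
      exact isIntegral_one
    have hηA : η ∈ A := Pool.Agent.Q60.MU.integral_mem A hηi
    obtain ⟨r, hr⟩ := exists_add_pow_prime_pow_eq hp (⟨η, hηA⟩ : A) (-1) (m + 1)
    have h3 : (η + -1) ^ p ^ (m + 1) = η ^ p ^ (m + 1) + (-1) ^ p ^ (m + 1) +
        (p : Qb) * η * (-1) * (r : Qb) := by
      have := congrArg (fun z : A => (z : Qb)) hr
      push_cast at this
      exact this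
    have h0 : (1 : Qb) + (-1) ^ p ^ (m + 1) ∈ A.nonunits := by
      rcases eq_or_ne p 2 with h | h
      · have hev : Even (p ^ (m + 1)) := by
          rw [h]
          exact (even_two.pow_of_ne_zero (Nat.succ_ne_zero m))
        rw [hev.neg_one_pow]
        have : (1 : Qb) + 1 = (p : Qb) := by
          rw [h]
          norm_num
        rw [this]
        exact hA
      · have hodd : Odd (p ^ (m + 1)) := (hp.odd_of_ne_two h).pow
        rw [hodd.neg_one_pow, add_neg_cancel]
        exact zero_mem _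
    rw [h2] at h3
    have h4 : (η + -1) ^ p ^ (m + 1) ∈ A.nonunits := by
      rw [h3, mul_assoc, mul_assoc]
      refine add_mem h0 (mul_nonunits hA ?_)
      exact A.mul_mem _ _ hηA (A.mul_mem _ _ (A.neg_mem _ A.one_mem) r.2)
    have h5 : η + -1 ∈ A.nonunits := by
      rw [ValuationSubring.mem_nonunits_iff] at h4 ⊢
      by_contra hcon
      rw [map_pow] at h4
      exact absurd (one_le_pow_of_one_le' (not_lt.1 hcon) _) (not_le.2 h4)
    have h6 : σ ζ - ζ = (η + -1) * ζ := by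
      rw [hη]
      field_simp
      ring
    rw [h6]
    exact mul_nonunits h5 hζA
  -- the subring
  let T : Subring Qb :=
    { carrier := {y | y ∈ A ∧ σ y - y ∈ A.nonunits}
      mul_mem' := by
        rintro a b ⟨ha, ha'⟩ ⟨hb, hb'⟩
        refine ⟨A.mul_mem _ _ ha hb, ?_⟩
        have h1 : σ (a * b) - a * b = (σ b - b) * σ a + (σ a - a) * b := by
          rw [map_mul]
          ring
        rw [h1]
        exact add_mem (mul_nonunits hb' ((smul_mem_iff hσ a).2 ha)) (mul_nonunits ha' hb)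
      one_mem' := ⟨A.one_mem, by rw [map_one, sub_self]; exact zero_mem _⟩
      add_mem' := by
        rintro a b ⟨ha, ha'⟩ ⟨hb, hb'⟩
        refine ⟨A.add_mem _ _ ha hb, ?_⟩
        have h1 : σ (a + b) - (a + b) = (σ a - a) + (σ b - b) := by
          rw [map_add]
          ring
        rw [h1]
        exact add_mem ha' hb'
      zero_mem' := ⟨A.zero_mem, by rw [map_zero, sub_self]; exact zero_mem _⟩
      neg_mem' := by
        rintro a ⟨ha, ha'⟩
        refine ⟨A.neg_mem _ ha, ?_⟩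
        have h1 : σ (-a) - (-a) = (σ a - a) * (-1) := by
          rw [map_neg]
          ring
        rw [h1]
        exact mul_nonunits ha' (A.neg_mem _ A.one_mem) }
  have hζT : ζ ∈ T := ⟨hζA, key⟩
  have hic := IsCyclotomicExtension.Rat.isIntegralClosure_adjoin_singleton_of_prime_pow
    (p := p) (k := m + 1) (K := cyc p m) (ζ := ⟨ζ, hζE⟩)
    (hζ := hζ.of_map_of_injective (f := algebraMap (cyc p m) Qb) (algebraMap (cyc p m) Qb).injective)
  have hxi' : IsIntegral ℤ (⟨x, hx⟩ : cyc p m) :=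
    (isIntegral_algebraMap_iff (algebraMap (cyc p m) Qb).injective).1 hxi
  obtain ⟨y, hy⟩ := hic.isIntegral_iff.1 hxi'
  have h7 : (algebraMap (cyc p m) Qb : cyc p m →+* Qb) (y : cyc p m) ∈ T := by
    have h8 : Algebra.adjoin ℤ ({⟨ζ, hζE⟩} : Set (cyc p m)) ≤
        subalgebraOfSubring (T.comap (algebraMap (cyc p m) Qb)) := by
      rw [Algebra.adjoin_le_iff, Set.singleton_subset_iff]
      exact hζT
    exact h8 y.2
  have h9 : (algebraMap (cyc p m) Qb : cyc p m →+* Qb) (y : cyc p m) = x := by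
    have h10 : (y : cyc p m) = ⟨x, hx⟩ := hy
    rw [h10]
    rfl
  rw [h9] at h7
  exact h7.2

/-- The lift of the action on the residue field. -/
theorem lift_residue {A : ValuationSubring Qb} (hA : (p : Qb) ∈ A.nonunits) {σ : Gal(Qb/ℚ)}
    (hσ : σ • A = A) (m : ℕ) : ∃ ν ∈ (cyc p m).fixingSubgroup,
      ∀ b, IsIntegral ℤ b → σ b - ν b ∈ A.nonunits := by
  have hp : p.Prime := Fact.out
  have hfd := cyc_finite hp m
  have nE : NumberField (cyc p m) := ⟨⟩
  have hgal : IsGalois (cyc p m) Qb := IsGalois.tower_top_of_isGalois ℚ (cyc p m) Qb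
  set O := integralClosure (𝓞 (cyc p m)) Qb with hO
  have hto : ∀ b : Qb, IsIntegral ℤ b ↔ IsIntegral (𝓞 (cyc p m)) b := by
    intro b
    constructor
    · intro h
      exact h.tower_top
    · intro h
      exact isIntegral_trans b h
  have hOA : ∀ b : O, algebraMap O Qb b ∈ A := fun b =>
    Pool.Agent.Q60.MU.integral_mem A ((hto _).2 b.2)
  let Q : Ideal O := cent A hOA
  have hQ : Q.IsPrime := cent_isPrime A hOA
  have hmemQ : ∀ b : O, b ∈ Q ↔ (b : Qb) ∈ A.nonunits := fun b => by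
    rw [ValuationSubring.mem_nonunits_iff]
    exact mem_cent A hOA b
  let e : O ≃+* O :=
    { toFun := fun b => ⟨σ b, (hto _).1 (isIntegral_gal σ ((hto _).2 b.2))⟩
      invFun := fun b => ⟨σ⁻¹ b, (hto _).1 (isIntegral_gal σ⁻¹ ((hto _).2 b.2))⟩
      left_inv := fun b => Subtype.ext (by
        show σ⁻¹ (σ b) = b
        rw [← AlgEquiv.mul_apply, inv_mul_cancel, AlgEquiv.one_apply])
      right_inv := fun b => Subtype.ext (by
        show σ (σ⁻¹ b) = b
        rw [← AlgEquiv.mul_apply, mul_inv_cancel, AlgEquiv.one_apply])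
      map_mul' := fun a b => Subtype.ext (map_mul σ _ _)
      map_add' := fun a b => Subtype.ext (map_add σ _ _) }
  have hQe : Q = Q.map (e : O →+* O) := by
    ext b
    constructor
    · intro hb
      have h1 : e.symm b ∈ Q := by
        rw [hmemQ] at hb ⊢
        have h2 : σ ((e.symm b : O) : Qb) = b := congrArg Subtype.val (e.apply_symm_apply b)
        rw [← smul_mem_nonunits_iff hσ, h2]
        exact hb
      have h2 := Ideal.mem_map_of_mem (e : O →+* O) h1
      have h3 : (e : O →+* O) (e.symm b) = b := e.apply_symm_apply b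
      rwa [h3] at h2
    · intro hb
      refine (Ideal.map_le_iff_le_comap.2 ?_) hb
      intro c hc
      rw [Ideal.mem_comap, hmemQ]
      show σ c ∈ A.nonunits
      rw [smul_mem_nonunits_iff hσ]
      exact (hmemQ c).1 hc
  let s : (O ⧸ Q) ≃+* (O ⧸ Q) := Ideal.quotientEquiv Q Q e hQe
  obtain ⟨ν, hν⟩ := Pool.Agent.H124R3.ZT.exists_lift (F := cyc p m) (L := Qb) (A := 𝓞 (cyc p m))
    Q hQ s (by
      intro a
      rw [Ideal.quotientEquiv_mk, Ideal.Quotient.eq, hmemQ]
      have h1 := residue_cyc hA hσ m (a : cyc p m) (a : cyc p m).2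
        ((RingOfIntegers.isIntegral_coe a).algebraMap)
      exact h1)
  refine ⟨ν.restrictScalars ℚ, ?_, ?_⟩
  · rw [IntermediateField.mem_fixingSubgroup_iff]
    intro x hx
    exact ν.commutes ⟨x, hx⟩
  · intro b hb
    have hb' : IsIntegral (𝓞 (cyc p m)) b := (hto b).1 hb
    have hνb : IsIntegral (𝓞 (cyc p m)) (ν b) :=
      (hto _).1 (isIntegral_gal (ν.restrictScalars ℚ) hb)
    have h1 := hν ⟨b, hb'⟩ ⟨ν b, hνb⟩ rfl
    rw [Ideal.quotientEquiv_mk] at h1
    have h2 := (Ideal.Quotient.eq.1 h1.symm)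
    rw [hmemQ] at h2
    exact h2

/-- **The inertia groups above `p` map onto the Galois group of the roots of unity.** -/
theorem inertia_surj {A : ValuationSubring Qb} (hA : (p : Qb) ∈ A.nonunits)
    (σ : Gal(Qb/ℚ)) (m : ℕ) : ∃ y ∈ inertia A, y⁻¹ * σ ∈ (cyc p m).fixingSubgroup := by
  have hp : p.Prime := Fact.out
  have hfd := cyc_finite hp m
  have nE : NumberField (cyc p m) := ⟨⟩
  have hnorm : (cyc p m).fixingSubgroup.Normal := by
    have h0 := cyc_isCyclotomic hp m
    have hnz : NeZero (p ^ (m + 1)) := ⟨(pow_pos hp.pos _).ne'⟩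
    exact (InfiniteGalois.normal_iff_isGalois _).2
      (IsCyclotomicExtension.isGalois {p ^ (m + 1)} ℚ (cyc p m))
  obtain ⟨τ, hτ, hτA⟩ := conj_of_below hp hA (smul_nonunits σ hA) (cyc p m)
    (one_prime hA (smul_nonunits σ hA) m)
  have h1 : (τ * σ) • A = A := by rw [mul_smul, ← hτA]
  obtain ⟨ν, hν, hνb⟩ := lift_residue hA h1 m
  set ρ : Gal(Qb/ℚ) := τ * σ with hρ
  have hρ' : ρ⁻¹ • A = A := by rw [inv_smul_eq_iff, h1]
  have h2 : ∀ b, IsIntegral ℤ b → A.valuation ((ρ⁻¹ * ν) b - b) < 1 := by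
    intro b hb
    rw [← ValuationSubring.mem_nonunits_iff]
    have h3 : (ρ⁻¹ * ν) b - b = ρ⁻¹ ((ρ b - ν b) * (-1)) := by
      have h4 : ρ⁻¹ (ρ b) = b := by
        rw [← AlgEquiv.mul_apply, inv_mul_cancel, AlgEquiv.one_apply]
      rw [map_mul, map_sub, h4, AlgEquiv.mul_apply, map_neg, map_one]
      ring
    rw [h3, smul_mem_nonunits_iff hρ']
    exact mul_nonunits (hνb b hb) (A.neg_mem _ A.one_mem)
  obtain ⟨h3, h4⟩ := Pool.Agent.H124R3.ZT.triv_of_int (K := ℚ) (L := Qb) (A := ℤ) A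
    (fun a => Pool.Agent.Q60.MU.integral_mem A isIntegral_algebraMap)
    (by
      intro htop
      rw [ValuationSubring.mem_nonunits_iff_or] at hA
      rcases hA with h | h
      · exact hp.ne_zero (by exact_mod_cast h)
      · apply h
        have h5 : ((p : ℚ))⁻¹ ∈ A.comap (algebraMap ℚ Qb) := by rw [htop]; trivial
        rw [ValuationSubring.mem_comap, map_inv₀, map_natCast] at h5
        exact h5) (ρ⁻¹ * ν) h2
  have h5 : ρ⁻¹ * ν ∈ inertia A := by
    refine mem_inertia.2 ⟨?_, fun x hx => ?_⟩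
    · ext x
      rw [ValuationSubring.mem_pointwise_smul_iff_inv_smul_mem]
      have h6 := h3 ((ρ⁻¹ * ν)⁻¹ x)
      have h7 : (ρ⁻¹ * ν) ((ρ⁻¹ * ν)⁻¹ x) = x := (ρ⁻¹ * ν).apply_symm_apply x
      rw [h7] at h6
      exact h6
    · rw [ValuationSubring.mem_nonunits_iff]
      exact h4 x hx
  refine ⟨(ρ⁻¹ * ν)⁻¹, inv_mem h5, ?_⟩
  have h6 : (ρ⁻¹ * ν)⁻¹⁻¹ * σ = (σ⁻¹ * (τ⁻¹ * ν) * σ⁻¹⁻¹) := by
    rw [hρ]
    group
  rw [h6]
  exact hnorm.conj_mem _ (Subgroup.mul_mem _ (Subgroup.inv_mem _ hτ) hν) σ⁻¹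

end Pool.Agent.V7H53.GP
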