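import Pool.Agent.V7H53.GP.Tw

/-!
# The growth theorem for towers
-/

set_option autoImplicit false

namespace Pool.Agent.V7H53.GP

open Subgroup Module IntermediateField Pool.Agent.Q60.MU Pool.Agent.V7H44.MF Pool.Agent.V7H53.TR
open Pool.Agent.V7H53.GG hiding bdd_up bdd_sub exists_degree base_field layer_lt one_level_from layer_bdd layer_level_from criterion_from numerical_from
open scoped Pointwise commutatorElement

variable {p : ℕ} [Fact p.Prime]

/-- **Ascent in extensions of `p`-power degree.** -/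
theorem bdd_up {S : Set ℕ} {R : ℕ → IntermediateField ℚ Qb}
    (hR : Tw p R) {F E : IntermediateField ℚ Qb} (hE : FiniteDimensional ℚ E)
    (hFE : F ≤ E) (hst : StableOver F E) {a : ℕ} (ha : finrank ℚ E = p ^ a * finrank ℚ F)
    (h : Bdd p S R F) : Bdd p S R E := by
  classical
  have hp : p.Prime := Fact.out
  have hF : FiniteDimensional ℚ F :=
    Submodule.finiteDimensional_of_le (S₁ := Subalgebra.toSubmodule F.toSubalgebra)
      (S₂ := Subalgebra.toSubmodule E.toSubalgebra) hFE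
  have hRf := hR.fin
  obtain ⟨r, hr⟩ := h
  set K := E.fixingSubgroup with hK
  set L := F.fixingSubgroup with hL
  have hKL : K ≤ L := fixingSubgroup_le hFE
  have hKo : IsOpen (K : Set Gal(Qb/ℚ)) := E.fixingSubgroup_isOpen
  have hKf : K.index ≠ 0 := index_ne_zero' E
  have hLf : L.index ≠ 0 := index_ne_zero' F
  have hKLi : K.relIndex L = p ^ a := by
    have h1 := relIndex_mul_index hKL
    rw [finrank_eq_fixingSubgroup_index, finrank_eq_fixingSubgroup_index, ← h1] at ha
    exact Nat.eq_of_mul_eq_mul_right (Nat.pos_of_ne_zero hLf) ha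
  obtain ⟨t, ht⟩ := ramified_of_finDec hR.dec hKo hKf
  have hcn := conj_of_stable hst
  have key : ∀ m, RankLe p (inertiaOff S) (K ⊓ (R m).fixingSubgroup)
      ((cst K.index (K.index * (L.index * t)) * p ^ r) ^ (K.index * 1)) := by
    intro m
    set D := (R m).fixingSubgroup with hD
    have hDn : D.Normal := hR.nor m
    have hDf : D.index ≠ 0 := by
      rw [hD, hR.idx m]
      exact pow_ne_zero _ hp.ne_zero
    have h0 : (K ⊓ D).relIndex (L ⊓ D) ≠ 0 := fun h =>
      index_inf_ne_zero hKf hDf (index_eq_zero_of_relIndex_eq_zero h)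
    have h1 : (K ⊓ D).relIndex (L ⊓ D) ≤ K.index := by
      rw [inf_relIndex_inf]
      exact relIndex_le_index' hKf
    have hLDf : (L ⊓ D).relIndex D ≠ 0 := fun h =>
      index_inf_ne_zero hLf hDf (index_eq_zero_of_relIndex_eq_zero h)
    obtain ⟨T, hTt, hT⟩ := ht m
    obtain ⟨T', hT'c, hT'⟩ := exists_TL hLDf T
    have hT'le : T'.card ≤ L.index * t := by
      refine hT'c.trans (Nat.mul_le_mul ?_ hTt)
      rw [inf_relIndex_right]
      exact relIndex_le_index' hLf
    have hnorm : ∀ d ∈ L ⊓ D, ∀ x ∈ K ⊓ D, d * x * d⁻¹ ∈ K ⊓ D := fun d hd x hx =>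
      ⟨hcn d hd.1 x hx.1, hDn.conj_mem x hx.2 d⟩
    have hN : ((K ⊓ D).subgroupOf (L ⊓ D)).Normal :=
      ⟨fun q hq l => hnorm l l.2 q hq⟩
    -- the index is a power of `p`
    have hdvd : (K ⊓ D).relIndex (L ⊓ D) ∣ p ^ a := by
      rw [inf_relIndex_inf, ← hKLi]
      have hKn : (K.subgroupOf L).Normal := ⟨fun q hq l => hcn l l.2 q hq⟩
      have h2 := relIndex_dvd_index_of_normal (K.subgroupOf L) ((L ⊓ D).subgroupOf L)
      rwa [relIndex_subgroupOf inf_le_left] at h2
    obtain ⟨c, -, hc⟩ := (Nat.dvd_prime_pow hp).1 hdvd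
    have h5 := main_ineq (p := p) (inertiaOff_conj S) (K := K ⊓ D) (D := L ⊓ D)
      (inf_le_inf_right _ hKL) hnorm h0 h1 {L ⊓ D} (by
        intro L' hL'
        rw [Finset.mem_singleton] at hL'
        rw [hL']
        exact ⟨inf_le_inf_right _ hKL, le_rfl⟩)
      (detects_p hN hc (Finset.mem_singleton_self _) _) T' hT'le (by
        intro w
        rcases hT w with h | ⟨u, hu, d, hd, rfl⟩
        · exact Or.inl fun x hx => ⟨h ⟨inertiaOff_le S w hx.1, hx.2.2⟩, hx.2.2⟩
        · exact Or.inr (hT' u hu d hd)) (C := p ^ r) (by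
        intro L' hL'
        rw [Finset.mem_singleton] at hL'
        rw [hL']
        exact (rankLe_level S hRf F m r).2 (hr m))
    rwa [Finset.card_singleton] at h5
  obtain ⟨b, hb⟩ := exists_pow hp ((cst K.index (K.index * (L.index * t)) * p ^ r) ^ (K.index * 1))
  exact ⟨b, fun m => (rankLe_level S hRf E m b).1 ((key m).mono hb)⟩


/-- **Descent to subfields.** -/
theorem bdd_sub {S : Set ℕ} {R : ℕ → IntermediateField ℚ Qb}
    (hR : Tw p R) {N E : IntermediateField ℚ Qb} (hN : FiniteDimensional ℚ N)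
    (hEN : E ≤ N) (h : Bdd p S R N) : Bdd p S R E := by
  have hp : p.Prime := Fact.out
  have hE : FiniteDimensional ℚ E :=
    Submodule.finiteDimensional_of_le (S₁ := Subalgebra.toSubmodule E.toSubalgebra)
      (S₂ := Subalgebra.toSubmodule N.toSubalgebra) hEN
  have hRf := hR.fin
  have hKf := index_ne_zero' N
  obtain ⟨r, hr⟩ := h
  obtain ⟨b, hb⟩ := exists_pow hp N.fixingSubgroup.index
  refine ⟨r + b, fun m => ?_⟩
  rw [← rankLe_level S hRf]
  have hDf : (R m).fixingSubgroup.index ≠ 0 := by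
    rw [hR.idx m]
    exact pow_ne_zero _ hp.ne_zero
  refine (RankLe.of_le (inf_le_inf_right _ (fixingSubgroup_le hEN)) ?_ (fun h0 =>
    index_inf_ne_zero hKf hDf (index_eq_zero_of_relIndex_eq_zero h0))
    ((rankLe_level S hRf N m r).2 (hr m))).mono ?_
  · rw [Subgroup.coe_inf]
    exact N.fixingSubgroup_isOpen.inter (hR.opn m)
  · rw [pow_add]
    refine Nat.mul_le_mul_left _ (le_trans ?_ hb)
    rw [inf_relIndex_inf]
    exact relIndex_le_index' hKf


theorem exists_degree {R : ℕ → IntermediateField ℚ Qb} (hR : Tw p R)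
    {N : IntermediateField ℚ Qb} (hN : FiniteDimensional ℚ N) (m : ℕ) :
    ∃ n, finrank ℚ (N ⊔ R m : IntermediateField ℚ Qb) = n * finrank ℚ N ∧
      p ^ m ≤ n * finrank ℚ N := by
  have hp : p.Prime := Fact.out
  have hRf := hR.fin m
  have h1 := relIndex_mul_index
    (inf_le_left : N.fixingSubgroup ⊓ (R m).fixingSubgroup ≤ N.fixingSubgroup)
  have e : finrank ℚ (N ⊔ R m : IntermediateField ℚ Qb) =
      (N.fixingSubgroup ⊓ (R m).fixingSubgroup).relIndex N.fixingSubgroup * finrank ℚ N := by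
    rw [finrank_eq_fixingSubgroup_index, finrank_eq_fixingSubgroup_index, fixingSubgroup_sup, h1]
  refine ⟨_, e, ?_⟩
  rw [← e]
  have h2 : p ^ m ∣ finrank ℚ (N ⊔ R m : IntermediateField ℚ Qb) := by
    rw [finrank_eq_fixingSubgroup_index, fixingSubgroup_sup, ← hR.idx m]
    exact index_dvd_of_le inf_le_right
  exact Nat.le_of_dvd finrank_pos h2


/-- Bounds for the ramification in the tower of `N`. -/
theorem base_field {S : Set ℕ} (hS : ∀ ℓ ∈ S, ℓ.Prime) (hpS : p ∉ S)
    {R : ℕ → IntermediateField ℚ Qb} (hR : Tw p R) {N : IntermediateField ℚ Qb}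
    (hN : FiniteDimensional ℚ N) {m₀ : ℕ} (hm₀ : BaseLevel p N m₀) {A : ValuationSubring Qb}
    (hA : (p : Qb) ∈ A.nonunits) (M : ℕ) : ∀ x ∈ (R m₀).fixingSubgroup,
      ∃ y ∈ inertiaOff S A, y ∈ N.fixingSubgroup ∧ y⁻¹ * x ∈ (R M).fixingSubgroup := by
  have hp : p.Prime := Fact.out
  have hI : inertiaOff S A = inertia A := by
    unfold inertiaOff
    rw [if_neg (not_above hS hpS hA)]
  intro x hx
  have hKf := index_ne_zero' N
  obtain ⟨y, hy, hyx⟩ := base_level (p := p) (D := fun m => (R m).fixingSubgroup)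
    (hR.nor) (hR.idx)
    hR.gen
    hR.anti (I := inertia A) (J := inertia A ⊓ N.fixingSubgroup)
    (fun M x => hR.on A hA x M)
    inf_le_left (m₀ := m₀) (by
      intro a ha
      rw [inf_relIndex_left] at ha
      rcases hm₀ with h | ⟨N', hNN', hfd, hgal, h⟩
      · have h1 : N.fixingSubgroup.relIndex (inertia A) ≤ finrank ℚ N := by
          rw [finrank_eq_fixingSubgroup_index]
          exact relIndex_le_index' hKf
        have h2 : N.fixingSubgroup.relIndex (inertia A) ≠ 0 := fun h0 =>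
          hKf (index_eq_zero_of_relIndex_eq_zero h0)
        have h3 := (Nat.le_of_dvd (Nat.pos_of_ne_zero h2) ha).trans_lt (h1.trans_lt h)
        exact Nat.lt_succ_iff.1 ((Nat.pow_lt_pow_iff_right hp.one_lt).1 h3)
      · have hn : N'.fixingSubgroup.Normal := (InfiniteGalois.normal_iff_isGalois N').2
          (isGalois_iff.2 ⟨inferInstance, (normal_iff_forall_map_le'.2 fun σ => by
            rintro _ ⟨x, hx, rfl⟩
            exact hgal σ (by rw [IntermediateField.fixingSubgroup_bot]; trivial) x hx)⟩)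
        have h1 : p ^ a ∣ finrank ℚ N' := by
          rw [finrank_eq_fixingSubgroup_index]
          exact ha.trans ((relIndex_dvd_of_le_left _ (fixingSubgroup_le hNN')).trans
            (relIndex_dvd_index_of_normal _ _))
        by_contra hcon
        exact h ((pow_dvd_pow p (not_le.1 hcon)).trans h1)) M x hx
  exact ⟨y, by rw [hI]; exact hy.1, hy.2, hyx⟩


theorem layer_lt {R : ℕ → IntermediateField ℚ Qb} (hR : Tw p R)
    {N : IntermediateField ℚ Qb} (hN : FiniteDimensional ℚ N) {m₀ : ℕ} (hm₀ : BaseLevel p N m₀)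
    {m : ℕ} (hm : m₀ < m) : (N.fixingSubgroup ⊓ (R m₀).fixingSubgroup).relIndex N.fixingSubgroup <
      (N.fixingSubgroup ⊓ (R m).fixingSubgroup).relIndex N.fixingSubgroup := by
  have hp : p.Prime := Fact.out
  obtain ⟨A, hA⟩ := exists_above (p := p)
  have hanti := hR.anti hm.le
  have hanti' : (R m).fixingSubgroup ≤ (R m₀).fixingSubgroup := hanti
  have hle : N.fixingSubgroup ⊓ (R m).fixingSubgroup ≤ N.fixingSubgroup ⊓ (R m₀).fixingSubgroup :=
    inf_le_inf_left _ hanti'
  have hKf := index_ne_zero' N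
  have hf : ∀ i, (N.fixingSubgroup ⊓ (R i).fixingSubgroup).relIndex N.fixingSubgroup ≠ 0 := by
    intro i h
    have := index_eq_zero_of_relIndex_eq_zero h
    exact index_inf_ne_zero hKf (by rw [hR.idx]; exact pow_ne_zero _ hp.ne_zero) this
  refine lt_of_le_of_ne (Nat.le_of_dvd (Nat.pos_of_ne_zero (hf m))
    (relIndex_dvd_of_le_left _ hle)) fun heq => ?_
  have h1 := relIndex_mul_relIndex _ _ _ hle inf_le_left
  rw [heq] at h1
  have h2 : (N.fixingSubgroup ⊓ (R m).fixingSubgroup).relIndex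
      (N.fixingSubgroup ⊓ (R m₀).fixingSubgroup) = 1 :=
    Nat.eq_of_mul_eq_mul_right (Nat.pos_of_ne_zero (hf m)) (by rw [h1, one_mul])
  have h3 := relIndex_eq_one.1 h2
  have h4 : (R m₀).fixingSubgroup ≤ (R m).fixingSubgroup := by
    intro x hx
    obtain ⟨y, -, hy, hyx⟩ := base_field (S := ∅) (fun _ h => absurd h (Set.notMem_empty _))
      (Set.notMem_empty _) hR hN hm₀ hA m x hx
    have h5 : y ∈ (R m₀).fixingSubgroup := by
      have h6 : y = x * (y⁻¹ * x)⁻¹ := by group
      rw [h6]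
      exact mul_mem hx (inv_mem (hanti' hyx))
    have h6 : x = y * (y⁻¹ * x) := by group
    rw [h6]
    exact mul_mem (h3 ⟨hy, h5⟩).2 hyx
  have h5 := relIndex_mul_index hanti'
  rw [relIndex_eq_one.2 h4, one_mul, hR.idx, hR.idx] at h5
  exact absurd h5 ((Nat.pow_lt_pow_iff_right hp.one_lt).2 hm).ne


/-- **One level suffices.** -/
theorem one_level_from {S : Set ℕ} (hS : ∀ ℓ ∈ S, ℓ.Prime) (hpS : p ∉ S)
    {R : ℕ → IntermediateField ℚ Qb}
    (hR : Tw p R) {k F N : IntermediateField ℚ Qb} (hN : FiniteDimensional ℚ N)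
    (hkF : k ≤ F) (hFN : F ≤ N) (hFk : StableOver k F) (hNk : StableOver k N) {m₀ : ℕ}
    (hm₀ : BaseLevel p N m₀)
    (hlay : NoPLayer p k F N) {d : ℕ} (hd : DimGe p k F N d) {m : ℕ} (hm : m₀ < m)
    (hgap : ¬ GapFrom p S R F N d m₀ m) : RelBdd p S R F N := by
  classical
  have hp : p.Prime := Fact.out
  have hF : FiniteDimensional ℚ F := fd_of_le hN hFN
  unfold GapFrom at hgap
  push Not at hgap
  obtain ⟨r, s, n, n₀, hr, hs, hn, hn₀, hlt⟩ := hgap
  have hRf := hR.fin
  have hRm := hRf m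
  have hKo := N.fixingSubgroup_isOpen
  have hKf := index_ne_zero' N
  have hKL : N.fixingSubgroup ≤ F.fixingSubgroup := fixingSubgroup_le hFN
  have hDo := hR.opn
  obtain ⟨t, ht⟩ := ramified_of_finDec hR.dec hKo hKf
  rw [← rankLe_level S hRf] at hr
  have hs' := valid_of_elementary S hs
  rw [fixingSubgroup_sup] at hs'
  have hidx : ∀ i q, LayerDegree R N i q →
      (N.fixingSubgroup ⊓ (R i).fixingSubgroup).relIndex N.fixingSubgroup = q := by
    intro i q hq
    have hRi := hRf i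
    have h1 := relIndex_mul_index
      (inf_le_left : N.fixingSubgroup ⊓ (R i).fixingSubgroup ≤ N.fixingSubgroup)
    unfold LayerDegree at hq
    rw [finrank_eq_fixingSubgroup_index, finrank_eq_fixingSubgroup_index, fixingSubgroup_sup,
      ← h1] at hq
    exact Nat.eq_of_mul_eq_mul_right (Nat.pos_of_ne_zero hKf) hq
  have hstep := layer_lt hR hN hm₀ hm
  obtain ⟨w₀, hw₀⟩ := exists_above (p := p)
  have hbase : ∀ w : ValuationSubring Qb, (p : Qb) ∈ w.nonunits → ∀ M,
      ∀ x ∈ N.fixingSubgroup ⊓ (R m₀).fixingSubgroup,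
        ∃ y ∈ inertiaOff S w, y ∈ N.fixingSubgroup ∧ y⁻¹ * x ∈ (R M).fixingSubgroup :=
    fun w hw M x hx => base_field hS hpS hR hN hm₀ hw M x hx.2
  obtain ⟨b, hb⟩ := growth_tot (p := p) (I := inertiaOff S) (inertiaOff_conj S) hKL
    (fixingSubgroup_le hkF) (conj_of_stable hNk) (conj_of_stable hFk) hKo hKf
    (D := fun m => (R m).fixingSubgroup) (hR.nor) hDo (hR.idx)
    hR.cyc hR.anti (m₀ := m₀) (w₀ := w₀) (hbase w₀ hw₀)
    (fun w => by
      by_cases hw : (p : Qb) ∈ w.nonunits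
      · exact Or.inr (hbase w hw)
      · exact Or.inl fun M σ hσ => hR.off w hw σ (inertiaOff_le S w hσ) M)
    ⟨t, fun m => by
      obtain ⟨T, hT1, hT2⟩ := ht m
      exact ⟨T, hT1, fun w => (hT2 w).imp
        (fun h => (inf_le_inf_right _ (inertiaOff_le S w)).trans h) id⟩⟩
    (by
      intro C hKC hCL hCn hCi
      obtain ⟨a, ha⟩ := hCi
      have hCo : IsOpen (C : Set Gal(Qb/ℚ)) := Subgroup.isOpen_mono hKC hKo
      have hfix := fix_fixed hCo
      have h1 : F ≤ fixedField C := (le_iff_le _ _).2 hCL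
      have h2 : fixedField C ≤ N := by
        rw [← InfiniteGalois.fixedField_fixingSubgroup N]
        exact fixedField_antitone hKC
      have h3 := hlay (fixedField C) h1 h2 (fixed_stable hCn) ⟨a, by
        rw [finrank_eq_fixingSubgroup_index, finrank_eq_fixingSubgroup_index, hfix, ← ha]
        exact (relIndex_mul_index hCL).symm⟩
      rw [← hfix, h3])
    (d := d) (fun V _ _ _ τ h1 h2 h3 => hd V τ (fun g hg x => h1 g hg x) h2 (fun h4 => by
      obtain ⟨g, hg, x, hx⟩ := h3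
      exact hx (h4 g hg x))) (m := m) (r := r) (s := s) hm.le hr hs' hstep (by
        rw [hidx m n hn, hidx m₀ n₀ hn₀]
        rw [hidx m n hn, hidx m₀ n₀ hn₀] at hstep
        rw [Nat.mul_sub]
        have h5 : d * n₀ ≤ d * n := Nat.mul_le_mul_left d hstep.le
        omega)
  obtain ⟨c, hc⟩ := exists_pow hp b
  refine ⟨c, fun M t hM => ?_⟩
  rw [← rankLe_level S hRf] at hM ⊢
  refine (hb M _ hM).mono ?_
  rw [add_comm, pow_add]
  exact Nat.mul_le_mul_right _ hc


section crit

variable {S : Set ℕ} (hS : ∀ ℓ ∈ S, ℓ.Prime) (hpS : p ∉ S) {R : ℕ → IntermediateField ℚ Qb}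
  (hR : Tw p R) {k F N F' : IntermediateField ℚ Qb} (hN : FiniteDimensional ℚ N)
  (hkF : k ≤ F) (hNk : StableOver k N) {m₀ : ℕ} (hm₀ : BaseLevel p N m₀)
  (hF' : IsPLayer p k F N F')

include hR hN hkF hF' in
theorem layer_bdd (h : Bdd p S R F) : Bdd p S R F' := by
  obtain ⟨a, ha⟩ := hF'.degree
  refine bdd_up hR (fd_of_le hN hF'.le') hF'.le (fun σ hσ x hx => ?_) ha h
  exact hF'.stable σ (fixingSubgroup_le hkF hσ) x hx


include hS hpS hR hN hkF hNk hm₀ hF' in
theorem layer_level_from {d : ℕ} (hd : DimGe p k F N d) {m : ℕ} (hm : m₀ < m)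
    (hgap : ¬ GapFrom p S R F' N d m₀ m) : RelBdd p S R F' N :=
  one_level_from hS hpS hR hN (hkF.trans hF'.le) hF'.le' hF'.stable hNk hm₀ hF'.maximal
    (hd.up hF'.le) hm hgap

include hS hpS hR hN hkF hNk hm₀ hF' in
theorem criterion_from {d : ℕ} (hd : DimGe p k F N d) (hd0 : 0 < d) :
    Bdd p S R N ↔ Bdd p S R F ∧ ∃ m > m₀, ¬ GapFrom p S R F' N d m₀ m := by
  have hFN := hF'.le.trans hF'.le'
  constructor
  · intro h
    refine ⟨bdd_sub hR hN hFN h, ?_⟩
    obtain ⟨r, hr⟩ := h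
    obtain ⟨n₀, hn₀, -⟩ := exists_degree hR hN m₀
    set m := (r + n₀) * finrank ℚ N + m₀ + 1 with hm
    obtain ⟨n, hn1, hn2⟩ := exists_degree hR hN m
    refine ⟨m, by omega, fun hgap => ?_⟩
    have hRm := hR.fin m
    have hF'f := fd_of_le hN hF'.le'
    have h1 := hgap r 0 n n₀ (hr _) (rank_zero S inferInstance) hn1 hn₀
    have h2 : m < p ^ m := Nat.lt_pow_self (Fact.out : p.Prime).one_lt
    have h3 : (r + n₀) * finrank ℚ N < n * finrank ℚ N := by
      calc (r + n₀) * finrank ℚ N < m := by omega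
        _ < p ^ m := h2
        _ ≤ _ := hn2
    have h4 : r + n₀ < n := Nat.lt_of_mul_lt_mul_right h3
    have h5 : d * (r + n₀) < d * n := Nat.mul_lt_mul_of_pos_left h4 hd0
    have h6 : r ≤ d * r := Nat.le_mul_of_pos_left r hd0
    rw [mul_add] at h5
    omega
  · rintro ⟨h, m, hmm, hm⟩
    exact (layer_level_from hS hpS hR hN hkF hNk hm₀ hF' hd hmm hm).bdd
      (layer_bdd hR hN hkF hF' h)

include hS hpS hR hN hkF hNk hm₀ hF' in
theorem numerical_from {d : ℕ} (hd : DimGe p k F N d) (h : Bdd p S R F) {m : ℕ} (hm : m₀ < m)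
    {r n n₀ : ℕ} (hn : LayerDegree R N m n) (hn₀ : LayerDegree R N m₀ n₀)
    (hr : PRankLe p S (N ⊔ R m) r) (hlt : r + d * n₀ < d * n) : Bdd p S R N := by
  refine (layer_level_from (m := m) hS hpS hR hN hkF hNk hm₀ hF' hd hm fun hgap => ?_).bdd
    (layer_bdd hR hN hkF hF' h)
  have hRm := hR.fin m
  have hF'f := fd_of_le hN hF'.le'
  have h1 := hgap _ 0 n n₀ hr (rank_zero S inferInstance) hn hn₀
  omega


end crit

end Pool.Agent.V7H53.GP
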